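/-
Project PD (MP_4845bf_pr): the best invariant predictive density in normal regression with
unknown variance is inadmissible under every alpha-divergence loss, -1 <= alpha < 1, for every
k >= 1 (in particular k = 1, 2).

Basic definitions used by the parts.
-/
import Mathlib

open MeasureTheory Set Filter Topology
open scoped RealInnerProductSpace ENNReal

namespace Pool.Agent.L7h38.PD

/-- Euclidean space. -/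
abbrev E (d : ℕ) := EuclideanSpace ℝ (Fin d)

/-- `ϖ(T) = T ^ (-κ - 1) * exp (-T/2)`. -/
noncomputable def vpi (κ T : ℝ) : ℝ := T ^ (-κ - 1) * Real.exp (-T / 2)

/-- The derivative of `ϖ`: `ϖ'(T) = -((κ+1)/T + 1/2) ϖ(T)`. -/
noncomputable def dvpi (κ T : ℝ) : ℝ := -((κ + 1) / T + 1 / 2) * vpi κ T

/-- `Ω(T) = ∫_T^∞ ϖ`. -/
noncomputable def Om (κ T : ℝ) : ℝ := ∫ t in Ioi T, vpi κ t

/-- `ψ(S, x) = K S / (K S + ‖x‖²)`. -/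
noncomputable def psi (K S : ℝ) {k : ℕ} (x : E k) : ℝ := K * S / (K * S + ‖x‖ ^ 2)

/-- `S ∂_S ψ(S, x) = K S ‖x‖² / (K S + ‖x‖²)²`. -/
noncomputable def dS (K S : ℝ) {k : ℕ} (x : E k) : ℝ :=
  K * S * ‖x‖ ^ 2 / (K * S + ‖x‖ ^ 2) ^ 2

/-- `⟨z, ∇_z ψ(S, a - R z)⟩ = 2 K S ⟨x, R z⟩ / (K S + ‖x‖²)²` at `x = a - R z`. -/
noncomputable def dz (K S : ℝ) {m k : ℕ} (R : E m →L[ℝ] E k) (z : E m) (x : E k) : ℝ :=
  2 * K * S * ⟪x, R z⟫ / (K * S + ‖x‖ ^ 2) ^ 2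

/-- `τ = tr (Rᵀ R) = ∑ i, ‖R e_i‖²`. -/
noncomputable def tau {m k : ℕ} (R : E m →L[ℝ] E k) : ℝ :=
  ∑ i : Fin m, ‖R (EuclideanSpace.single i (1 : ℝ))‖ ^ 2

/-- `‖Rᵀ x‖² = ∑ i, ⟨x, R e_i⟩²`. -/
noncomputable def rx {m k : ℕ} (R : E m →L[ℝ] E k) (x : E k) : ℝ :=
  ∑ i : Fin m, ⟪x, R (EuclideanSpace.single i (1 : ℝ))⟫ ^ 2

/-- `Δ_z ψ(S, a - R z)` at `x = a - R z`:
`K S (-2 τ / (K S + ‖x‖²)² + 8 ‖Rᵀ x‖² / (K S + ‖x‖²)³)`. -/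
noncomputable def lap (K S : ℝ) {m k : ℕ} (R : E m →L[ℝ] E k) (x : E k) : ℝ :=
  K * S * (-2 * tau R / (K * S + ‖x‖ ^ 2) ^ 2 + 8 * rx R x / (K * S + ‖x‖ ^ 2) ^ 3)

/-- Base measure on `(S, z)`, `S > 0`. -/
noncomputable def mu2 (m : ℕ) : Measure (ℝ × E m) :=
  (volume.restrict (Ioi (0 : ℝ))).prod volume

/-- Base measure on `(S, z, w)`, `S > 0`. -/
noncomputable def mu (m k : ℕ) : Measure (ℝ × E m × E k) :=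
  (volume.restrict (Ioi (0 : ℝ))).prod (volume.prod volume)

/-- `T = S + ‖z‖²`. -/
noncomputable def TT {m k : ℕ} (p : ℝ × E m × E k) : ℝ := p.1 + ‖p.2.1‖ ^ 2

/-- Base weight `S^(b-1) ϖ(T) exp(-‖w‖²/2)`. -/
noncomputable def wt (b κ : ℝ) {m k : ℕ} (p : ℝ × E m × E k) : ℝ :=
  p.1 ^ (b - 1) * vpi κ (TT p) * Real.exp (-‖p.2.2‖ ^ 2 / 2)

/-- `x = θ - R z + C w`. -/
noncomputable def xx {m k : ℕ} (θ : E k) (R : E m →L[ℝ] E k) (C : E k ≃L[ℝ] E k)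
    (p : ℝ × E m × E k) : E k :=
  θ - R p.2.1 + C p.2.2

/-- The (unnormalised) Gaussian average `H(z) = ∫ j(θ - R z + C w) exp(-‖w‖²/2) dw`. -/
noncomputable def HH {m k : ℕ} (R : E m →L[ℝ] E k) (C : E k ≃L[ℝ] E k) (j : E k → ℝ≥0∞)
    (θ : E k) (z : E m) : ℝ≥0∞ :=
  ∫⁻ w : E k, j (θ - R z + C w) * ENNReal.ofReal (Real.exp (-‖w‖ ^ 2 / 2))

/-- The algebraic relation between `L`, `B`, `C`, `R` (completing the square):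
`‖u‖² + (1-s)‖ζ + L u‖² = ‖B ζ‖² + ‖w‖²` for `u = C w - R (B ζ)`. -/
def Square {m k : ℕ} (s : ℝ) (L : E k →L[ℝ] E m) (B : E m ≃L[ℝ] E m) (C : E k ≃L[ℝ] E k)
    (R : E m →L[ℝ] E k) : Prop :=
  ∀ (ζ : E m) (w : E k),
    ‖C w - R (B ζ)‖ ^ 2 + (1 - s) * ‖ζ + L (C w - R (B ζ))‖ ^ 2 = ‖B ζ‖ ^ 2 + ‖w‖ ^ 2

end Pool.Agent.L7h38.PD
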