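/-
Project PD (MP_4845bf_pr): statements of the parts (with proof sketches).
-/
import Pool.Agent.L7h38.PD.Defs

open MeasureTheory Set Filter Topology
open scoped RealInnerProductSpace ENNReal

namespace Pool.Agent.L7h38.PD

/-! ## A. The core inequality -/

/-- A1 (INT2).  Master integrability on `(S, z)`.
Sketch: for `S > 0`, `κ = κ₁ + κ₂` with `κ₁ = κ b/(b+m/2) < b`, `κ₂ = κ (m/2)/(b+m/2)` (`< m/2` if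
`m > 0`, `= 0` if `m = 0`) one has `T^(-κ) ≤ S^(-κ₁) (‖z‖²)^(-κ₂)` for `z ≠ 0` (a.e. if `m > 0`);
`(1+T)^N exp(-cT) ≤ C exp(-cT/2)`; then a product of `∫_0^∞ S^(b-κ₁-1) e^{-cS/2}` and
`∫ ‖z‖^(-2κ₂) e^{-c‖z‖²/2}` (`integrable_fun_norm_addHaar`,
`integrableOn_rpow_mul_exp_neg_mul_rpow`), `Integrable.mul_prod`, `Integrable.mono'`. -/
def S_INT2 : Prop := ∀ (m : ℕ) (b κ c : ℝ), 0 < b → 0 ≤ κ → κ < b + (m : ℝ) / 2 → 0 < c →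
  ∀ N : ℕ, Integrable (fun q : ℝ × E m => q.1 ^ (b - 1) * (q.1 + ‖q.2‖ ^ 2) ^ (-κ) *
    Real.exp (-c * (q.1 + ‖q.2‖ ^ 2)) * (1 + q.1 + ‖q.2‖ ^ 2) ^ N) (mu2 m)

/-- A2 (INT).  The same with the Gaussian variable `w`; prove `S_INT2 → S_INT`.
Sketch: `(1+T+‖w‖²)^N ≤ (1+T)^N (1+‖w‖²)^N`, and `exp(-‖w‖²/2)(1+‖w‖²)^N` is integrable;
reorder `ℝ × E m × E k` as `(ℝ × E m) × E k` by `MeasurableEquiv.prodAssoc`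
(`measurePreserving_prodAssoc` or similar). -/
def S_INT : Prop := ∀ (m k : ℕ) (b κ c : ℝ), 0 < b → 0 ≤ κ → κ < b + (m : ℝ) / 2 → 0 < c →
  ∀ N : ℕ, Integrable (fun p : ℝ × E m × E k => p.1 ^ (b - 1) * (TT p) ^ (-κ) *
    Real.exp (-c * TT p) * Real.exp (-‖p.2.2‖ ^ 2 / 2) * (1 + TT p + ‖p.2.2‖ ^ 2) ^ N) (mu m k)

/-- A3 (OM).  Facts on `ϖ` and `Ω`.
Sketch: `ϖ` is continuous, positive and decreasing on `(0,∞)`, with derivative `dvpi`;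
`∫_T^∞ ϖ ≤ T^(-κ-1) ∫_T^∞ e^{-t/2} = 2 ϖ(T)`; last one:
`t^(-κ-1) e^{-t/2} ≤ C' t^(-η-1) e^{-t/4}` (as `t^(η-κ) e^{-t/4}` is bounded), so
`Ω(T) ≤ C' e^{-T/4} ∫_T^∞ t^(-η-1) = (C'/η) T^(-η) e^{-T/4}`. -/
def S_OM : Prop := ∀ κ : ℝ, 0 ≤ κ →
  (∀ T : ℝ, 0 < T → 0 < vpi κ T ∧ HasDerivAt (vpi κ) (dvpi κ T) T ∧
    IntegrableOn (vpi κ) (Ioi T) ∧ HasDerivAt (Om κ) (-vpi κ T) T ∧ 0 < Om κ T ∧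
    Om κ T ≤ 2 * vpi κ T) ∧
  (∀ a b : ℝ, 0 < a → a ≤ b → vpi κ b ≤ vpi κ a ∧ Om κ b ≤ Om κ a ∧
    Om κ a ≤ Om κ b + (b - a) * vpi κ a) ∧
  (∀ η : ℝ, κ < η → ∃ C : ℝ, 0 < C ∧ ∀ T : ℝ, 0 < T →
    Om κ T ≤ C * (T ^ (-η) * Real.exp (-(1 / 4) * T)))

/-- A4 (IBP1a).  Integration by parts in `z` at fixed `S > 0`:
`div_z (ϖ(S+‖z‖²) z) = m ϖ + 2 ‖z‖² ϖ'`, tested against `g(z) = ψ(S, a - R z)`.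
Everything is smooth (`S + ‖z‖² ≥ S > 0`) with Gaussian decay; `|g| ≤ 1`, `|∇g| ≤ ‖R‖/√(K S)`.
(`integral_bilinear_hasLineDerivAt_right_eq_neg_left_of_integrable` for the directions `e_i`,
then sum over `i`.) -/
def S_IBP1a : Prop := ∀ (m k : ℕ) (κ K S : ℝ), 0 ≤ κ → 0 < K → 0 < S →
  ∀ (R : E m →L[ℝ] E k) (a : E k),
  ∫ z : E m, (((m : ℝ) / 2) * vpi κ (S + ‖z‖ ^ 2) + ‖z‖ ^ 2 * dvpi κ (S + ‖z‖ ^ 2)) *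
      psi K S (a - R z) =
    -(1 / 2) * ∫ z : E m, vpi κ (S + ‖z‖ ^ 2) * dz K S R z (a - R z)

/-- A5 (IBP1b).  Integration by parts in `S` on `(0, ∞)` for fixed `r = ‖z‖² > 0` and `x`:
`∂_S (S^b ϖ(S+r)) = b S^(b-1) ϖ + S^b ϖ'`, tested against `ψ(S, x)`, `∂_S ψ = dS / S`; the
boundary terms vanish (`b > 0`, `0 ≤ ψ ≤ 1`).  (`integral_Ioi_of_hasDerivAt_of_tendsto`.) -/
def S_IBP1b : Prop := ∀ (k : ℕ) (b κ K r : ℝ), 0 < b → 0 ≤ κ → 0 < K → 0 < r → ∀ x : E k,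
  ∫ S in Ioi (0 : ℝ), (b * S ^ (b - 1) * vpi κ (S + r) + S ^ b * dvpi κ (S + r)) * psi K S x =
    - ∫ S in Ioi (0 : ℝ), S ^ (b - 1) * vpi κ (S + r) * dS K S x

/-- A6 (IBP2).  Second integration by parts in `z` at fixed `S > 0`:
`div_z (Ω(S+‖z‖²) ∇g) = -2 ϖ ⟨z, ∇g⟩ + Ω Δg`, `g(z) = ψ(S, a - R z)`, `Δg = lap`.
(Use `S_OM`; prove `S_OM → S_IBP2`.) -/
def S_IBP2 : Prop := ∀ (m k : ℕ) (κ K S : ℝ), 0 ≤ κ → 0 < K → 0 < S →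
  ∀ (R : E m →L[ℝ] E k) (a : E k),
  ∫ z : E m, vpi κ (S + ‖z‖ ^ 2) * dz K S R z (a - R z) =
    (1 / 2) * ∫ z : E m, Om κ (S + ‖z‖ ^ 2) * lap K S R (a - R z)

/-- A7 (IBP).  Prove `S_INT2 → S_OM → S_IBP1a → S_IBP1b → S_IBP2 → S_IBP`.
Sketch: `S^(b-1) ϖ ((m/2) S - b‖z‖²) = S^b ((m/2) ϖ + ‖z‖² ϖ') - ‖z‖² (b S^(b-1) ϖ + S^b ϖ')`.
Both terms (times `ψ ∈ [0,1]`) are integrable on `mu2` by `S_INT2`: with `T = S + ‖z‖²`,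
`S^b ϖ ≤ S^(b-1) T^(-κ) e^{-T/2}`, `S^b ‖z‖² |ϖ'| ≤ C S^(b-1) (T^(-κ)(1+T)) e^{-T/2}`.
First term: Fubini with `z` inside, `S_IBP1a`, `S_IBP2`.  Second term: Fubini with `S` inside
(`z ≠ 0` a.e. when `m ≥ 1`; if `m = 0` then `‖z‖ = 0` and the term is `0`), `S_IBP1b`.
Bounds for the right hand side: `0 ≤ dS ≤ 1`, `|S * lap| ≤ C(K, R)` (as `‖x‖² ≤ K S + ‖x‖²` and
`K S ≤ K S + ‖x‖²`), `Ω ≤ C T^(-η) e^{-T/4}` with `κ < η < b + m/2`. -/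
def S_IBP : Prop := ∀ (m k : ℕ) (b κ K : ℝ), 0 < b → 0 ≤ κ → κ < b + (m : ℝ) / 2 → 0 < K →
  ∀ (R : E m →L[ℝ] E k) (a : E k),
  ∫ q : ℝ × E m, q.1 ^ (b - 1) * vpi κ (q.1 + ‖q.2‖ ^ 2) *
      (((m : ℝ) / 2) * q.1 - b * ‖q.2‖ ^ 2) * psi K q.1 (a - R q.2) ∂(mu2 m) =
    ∫ q : ℝ × E m, q.1 ^ (b - 1) * (‖q.2‖ ^ 2 * vpi κ (q.1 + ‖q.2‖ ^ 2) * dS K q.1 (a - R q.2) -
      q.1 / 4 * Om κ (q.1 + ‖q.2‖ ^ 2) * lap K q.1 R (a - R q.2)) ∂(mu2 m)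

/-- A8 (COSH).  Sketch: with `v = C⁻¹ R z` and `φ(w) = exp(-‖w‖²/2)`, translation gives
`H(t z) = ∫ φ(w + t v) j(θ + C w) dw`, and
`φ(w + t v) + φ(w - t v) = 2 φ(w) e^{-t²‖v‖²/2} cosh(t⟨w,v⟩) ≤ 2 φ(w) cosh⟨w,v⟩
 = e^{‖v‖²/2} (φ(w+v) + φ(w-v))` for `0 ≤ t ≤ 1`; `‖v‖ ≤ ‖C⁻¹ R‖ ‖z‖`. -/
def S_COSH : Prop := ∀ (m k : ℕ) (R : E m →L[ℝ] E k) (C : E k ≃L[ℝ] E k) (j : E k → ℝ≥0∞),
  Measurable j → ∀ (θ : E k) (t : ℝ) (z : E m), 0 ≤ t → t ≤ 1 →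
  HH R C j θ (t • z) + HH R C j θ (-(t • z)) ≤
    ENNReal.ofReal (Real.exp (‖(C.symm : E k →L[ℝ] E k).comp R‖ ^ 2 / 2 * ‖z‖ ^ 2)) *
      (HH R C j θ z + HH R C j θ (-z))

/-- A9 (BALL).  Prove `S_OM → S_BALL`.
Sketch: `‖z‖ ≥ 1`: `Ω(T) ≤ 2 ϖ(T) ≤ 2‖z‖² ϖ(T)`.  `0 < ‖z‖ < 1`: let `a_l = S + 4^l ‖z‖²` and `N`
with `2^N ‖z‖ ∈ [1,2)`.  `Ω(a_l) ≤ Ω(a_(l+1)) + 3·4^l ‖z‖² ϖ(a_l)` and
`Ω(a_N) ≤ 2 ϖ(a_N) ≤ 2·4^N‖z‖² ϖ(a_N)`, hence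
`Ω(S+‖z‖²) ≤ 3 ∑_{l : 2^l ‖z‖ < 2} 4^l ‖z‖² ϖ(S + 4^l‖z‖²)`.  Integrate against `H`, substitute
`z = 2^(-l) z'` (factor `2^(-l m)`, `∑_l 2^(-l m) ≤ 2` as `m ≥ 1`), symmetrise `z' → -z'` and use the
hypothesis with `t = 2^(-l)` on `‖z'‖ < 2` (factor `e^{4c}`):
`∫_{‖z‖<1} Ω H ≤ 6 e^{4c} ∫ ‖z‖² ϖ(S+‖z‖²) H`.  So `C₂ = 2 + 6 e^{4c}`. -/
def S_BALL : Prop := ∀ (m : ℕ) (κ c : ℝ), 0 < m → 0 ≤ κ → 0 ≤ c → ∃ C₂ : ℝ, 0 < C₂ ∧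
  ∀ S : ℝ, 0 < S → ∀ H : E m → ℝ≥0∞, Measurable H →
    (∀ (t : ℝ) (z : E m), 0 ≤ t → t ≤ 1 →
      H (t • z) + H (-(t • z)) ≤ ENNReal.ofReal (Real.exp (c * ‖z‖ ^ 2)) * (H z + H (-z))) →
    ∫⁻ z : E m, ENNReal.ofReal (Om κ (S + ‖z‖ ^ 2)) * H z ≤
      ENNReal.ofReal C₂ *
        ∫⁻ z : E m, ENNReal.ofReal (‖z‖ ^ 2 * vpi κ (S + ‖z‖ ^ 2)) * H z

/-- A10 (LOW).  Prove `S_INT → S_OM → S_LOW`.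
Sketch: integrable by `Ω ≤ C T^(-η) e^{-T/4}`, `κ < η < b + m/2`, `0 ≤ ψ ≤ 1`; restrict the
integral to the box `S ∈ [1,2], ‖z‖ ≤ 1, ‖w‖ ≤ 1` (positive finite volume), where
`‖x‖ ≤ ‖θ‖ + ‖R‖ + ‖C‖`, so `ψ ≥ K/(2K + ‖x‖²) ≥ c'/(1+‖θ‖²)`. -/
def S_LOW : Prop := ∀ (m k : ℕ) (b κ K : ℝ), 0 < b → 0 ≤ κ → κ < b + (m : ℝ) / 2 → 0 < K →
  ∀ (R : E m →L[ℝ] E k) (C : E k ≃L[ℝ] E k), ∃ c : ℝ, 0 < c ∧ ∀ θ : E k,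
    c / (1 + ‖θ‖ ^ 2) ^ 2 ≤ ∫ p : ℝ × E m × E k, p.1 ^ (b - 1) * Om κ (TT p) *
      psi K p.1 (xx θ R C p) ^ 2 * Real.exp (-‖p.2.2‖ ^ 2 / 2) ∂(mu m k)

/-- A11 (UP).  Prove `S_INT → S_UP`.
Sketch: with `u = x - θ = -R z + C w`, `‖θ‖² ≤ 2‖x‖² + 2‖u‖²` gives
`(1+‖θ‖²) ψ ≤ 2 (1 + K S)(1 + ‖u‖²)`, and `wt * T = S^(b-1) T^(-κ) e^{-T/2} e^{-‖w‖²/2}`. -/
def S_UP : Prop := ∀ (m k : ℕ) (b κ K : ℝ), 0 < b → 0 ≤ κ → κ < b + (m : ℝ) / 2 → 0 < K →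
  ∀ (R : E m →L[ℝ] E k) (C : E k ≃L[ℝ] E k), ∃ C₁ : ℝ, 0 < C₁ ∧ ∀ θ : E k,
    ∫ p : ℝ × E m × E k, wt b κ p * TT p * psi K p.1 (xx θ R C p) ^ 2 ∂(mu m k) ≤
      C₁ / (1 + ‖θ‖ ^ 2) ^ 2

/-- A12 (CORE).  The core inequality.  (Assembly, helper38.)
`J(θ) = ∫ wt ((m/2) S - b‖z‖²) ψ = ∫_w e^{-‖w‖²/2} (S_IBP with a = θ + C w)
 ≥ (1/K) ∫ S^(b-1) e^{-‖w‖²/2} ψ² {(‖x‖²/S)‖z‖² ϖ + Ω (τ/2 - (2‖R‖²/K) (‖x‖²/S))}`;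
by COSH and BALL (`j = ψ²‖x‖²/S`), for `K = 2 ‖R‖² C₂` it is `≥ (τ/2K) ∫ S^(b-1) Ω ψ² e^{-‖w‖²/2}`,
then LOW and UP. -/
def S_CORE : Prop := ∀ (m k : ℕ) (b κ : ℝ), 0 < b → 0 ≤ κ → κ < b + (m : ℝ) / 2 →
  ∀ (R : E m →L[ℝ] E k) (C : E k ≃L[ℝ] E k), R ≠ 0 →
  ∃ K : ℝ, 0 < K ∧ ∃ δ : ℝ, 0 < δ ∧ δ ≤ 1 / 2 ∧ ∀ θ : E k,
    Integrable (fun p : ℝ × E m × E k => wt b κ p *
      ((((m : ℝ) / 2) * p.1 - b * ‖p.2.1‖ ^ 2) * (δ * psi K p.1 (xx θ R C p)) -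
        2 * b * (δ * psi K p.1 (xx θ R C p)) ^ 2 * TT p)) (mu m k) ∧
    0 < ∫ p : ℝ × E m × E k, wt b κ p *
      ((((m : ℝ) / 2) * p.1 - b * ‖p.2.1‖ ^ 2) * (δ * psi K p.1 (xx θ R C p)) -
        2 * b * (δ * psi K p.1 (xx θ R C p)) ^ 2 * TT p) ∂(mu m k)

/-! ## B. Reduction -/

/-- B1 (ISO).  Sketch: the range of `A` has dimension `k`; choose an orthonormal basis of `E n`
indexed by `Fin k ⊕ Fin (n-k)` whose first `k` vectors span `range A` (or: orthonormal bases of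
`range A` and of its orthogonal complement, and `Submodule` orthogonal decomposition); volume:
`OrthonormalBasis.measurePreserving_repr`, `LinearIsometryEquiv.measurePreserving`,
`WithLp.volume_preserving_ofLp` for `WithLp 2 (E k × E (n-k))`. -/
def S_ISO : Prop := ∀ (n k : ℕ), k ≤ n → ∀ A : E k →L[ℝ] E n, Function.Injective A →
  ∃ (e : E n ≃L[ℝ] E k × E (n - k)) (g : E k ≃L[ℝ] E k),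
    MeasurePreserving e (volume : Measure (E n)) (volume : Measure (E k × E (n - k))) ∧
    (∀ y : E n, ‖y‖ ^ 2 = ‖(e y).1‖ ^ 2 + ‖(e y).2‖ ^ 2) ∧
    ∀ β : E k, e (A β) = (g β, 0)

/-- B2 (LIN).  Completing the square.
Sketch: `P = 1 + (1-s) LᵀL` is positive definite on `E k`; `u₀(ζ) = -(1-s) P⁻¹ Lᵀ ζ` is the
minimiser of `u ↦ ‖u‖² + (1-s)‖ζ + L u‖²`, whose value at `u₀ + v` is
`‖u₀‖² + (1-s)‖ζ+L u₀‖² + ‖v‖² + (1-s)‖L v‖²`.  Both forms `v ↦ ‖v‖²+(1-s)‖Lv‖²` and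
`ζ ↦ ‖u₀ζ‖²+(1-s)‖ζ+L u₀ζ‖²` are `‖a ·‖²` for an injective linear map `a` into
`WithLp 2 (E k × E m)`, hence `= ‖B' ·‖²` for a linear equivalence `B'` (orthonormal basis of the
range of `a`): `C = B'⁻¹`, `B`, and `R = -u₀ ∘ B⁻¹`, which is `≠ 0` iff `L ≠ 0`. -/
def S_LIN : Prop := ∀ (m k : ℕ) (s : ℝ), 0 ≤ s → s < 1 → ∀ L : E k →L[ℝ] E m,
  ∃ (B : E m ≃L[ℝ] E m) (C : E k ≃L[ℝ] E k) (R : E m →L[ℝ] E k), Square s L B C R ∧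
    (L ≠ 0 → R ≠ 0)

/-- B3 (MAP).  Change of variables.
Sketch: for fixed `x = θ̂ = y.1.1` substitute `ζ = ỹ - L x` (translation), `u = x - θ`; the exponent is
`-(‖u‖² + (1-s)‖ζ + L u‖²)/2 - ‖y_⊥‖²/2`.  For fixed `ζ` substitute `u = C w - R (B ζ)` (linear map `C`
and a translation: constant Jacobian), the exponent becomes `-(‖Bζ‖² + ‖w‖²)/2 - ‖y_⊥‖²/2` and
`x = θ - R(Bζ) + C w`; then `z = B ζ` (constant Jacobian); finally for a function of `‖y_⊥‖²`,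
`y_⊥ ∈ E ν`, `ν ≥ 1`: `∫⁻ f(‖y‖²) dy = c ∫⁻_{S>0} f(S) S^(ν/2-1) dS`. -/
def S_MAP : Prop := ∀ (k m ν : ℕ) (s : ℝ), 0 < ν → 0 ≤ s → s < 1 →
  ∀ (L : E k →L[ℝ] E m) (B : E m ≃L[ℝ] E m) (C : E k ≃L[ℝ] E k) (R : E m →L[ℝ] E k),
  Square s L B C R →
  ∃ c : ℝ≥0∞, c ≠ 0 ∧ c ≠ ∞ ∧ ∀ (θ : E k) (F : ℝ → E k → ℝ → ℝ≥0∞),
    Measurable (fun p : ℝ × E k × ℝ => F p.1 p.2.1 p.2.2) →
    ∫⁻ y : (E k × E ν) × E m,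
      ENNReal.ofReal (Real.exp (-(‖y.1.1 - θ‖ ^ 2 + ‖y.1.2‖ ^ 2) / 2 -
        (1 - s) * ‖y.2 - L θ‖ ^ 2 / 2)) * F (‖y.1.2‖ ^ 2) y.1.1 (‖B (y.2 - L y.1.1)‖ ^ 2) =
    c * ∫⁻ p : ℝ × E m × E k,
      ENNReal.ofReal (p.1 ^ ((ν : ℝ) / 2 - 1) * Real.exp (-(TT p) / 2 - ‖p.2.2‖ ^ 2 / 2)) *
        F p.1 (xx θ R C p) (‖p.2.1‖ ^ 2) ∂(mu m k)

/-- B4 (NORM).  Normalisation of the multivariate t density.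
Sketch: translation and `z = B⁻¹ (√S z')` reduce it to `I = ∫ (1+‖B z‖²)^(-a) dz`, finite as
`2a > m` (`integrable_rpow_neg_one_add_norm_sq` / `integrable_one_add_norm`). -/
def S_NORM : Prop := ∀ (m : ℕ) (a : ℝ), (m : ℝ) / 2 < a → ∀ B : E m ≃L[ℝ] E m,
  ∃ I : ℝ, 0 < I ∧ ∀ S : ℝ, 0 < S → ∀ c : E m,
    Integrable (fun z : E m => (S + ‖B (z - c)‖ ^ 2) ^ (-a)) ∧
    ∫ z : E m, (S + ‖B (z - c)‖ ^ 2) ^ (-a) = I * S ^ ((m : ℝ) / 2 - a)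

/-- B5 (LOG).  Pointwise bound for the logarithm of the ratio of the two t densities.
Sketch: `B = S/(S+Q)`; `log((1-ε)^b (1-εB)^(-(b+m/2))) = b log(1-ε) - (b+m/2) log(1-εB)`,
`log(1-ε) ≥ -ε/(1-ε) ≥ -ε - 2ε²`, `-log(1-εB) ≥ εB`, and
`-b + (b+m/2) B = ((m/2) S - b Q)/(S+Q)`. -/
def S_LOG : Prop := ∀ (b h S Q ε : ℝ), 0 < b → 0 ≤ h → 0 < S → 0 ≤ Q → 0 ≤ ε → ε ≤ 1 / 2 →
  ε * (h * S - b * Q) / (S + Q) - 2 * b * ε ^ 2 ≤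
    Real.log ((((1 - ε) * S) ^ b * ((1 - ε) * S + Q) ^ (-(b + h))) /
      (S ^ b * (S + Q) ^ (-(b + h))))

/-- The function `f_α` of the loss. -/
noncomputable def fdiv (α z : ℝ) : ℝ :=
  if α = -1 then -Real.log z else 4 / (1 - α ^ 2) * (1 - z ^ ((1 + α) / 2))

/-- B6 (PWR).  Pointwise inequality for the loss.
Sketch: `α = -1`: equality (`log (q₁/p) - log (q₂/p) = log (q₁/q₂)`, `q₂^0 = 1`).  `|α| < 1`, `s = (1+α)/2`: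
`(f(q₂/p) - f(q₁/p)) p = (1/(s(1-s))) (q₁^s - q₂^s) p^(1-s)` and
`(q₁/q₂)^s = exp(s log(q₁/q₂)) ≥ 1 + s log (q₁/q₂)`. -/
def S_PWR : Prop := ∀ (α q₁ q₂ p : ℝ), -1 ≤ α → α < 1 → 0 < q₁ → 0 < q₂ → 0 < p →
  2 / (1 - α) * (q₂ ^ ((1 + α) / 2) * p ^ ((1 - α) / 2) * Real.log (q₁ / q₂)) ≤
    (fdiv α (q₂ / p) - fdiv α (q₁ / p)) * p

/-- B7 (KLI).  Integrability of logarithmic terms against Gaussians (`ν ≥ 1`).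
Sketch: `|log r| ≤ C_η r^(-η) + r` with `η = 1/4`: `|log ‖y‖²| ≤ C‖y‖^(-1/2) + ‖y‖²`; products of
one-variable integrals. -/
def S_KLI : Prop := ∀ (k m ν : ℕ), 0 < ν → ∀ (θ : E k) (η : E m),
  Integrable (fun y : (E k × E ν) × E m =>
    Real.exp (-(‖y.1.1 - θ‖ ^ 2 + ‖y.1.2‖ ^ 2 + ‖y.2 - η‖ ^ 2) / 2) *
      (1 + |Real.log (‖y.1.2‖ ^ 2)| + ‖y.1.1‖ ^ 2 + ‖y.1.2‖ ^ 2 + ‖y.2‖ ^ 2))

/-- B8 (BAYES).  The formal Bayes integral for the prior `1/σ²` (`v = σ²`).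
Sketch: by `Square` with `ζ = ỹ - L x`, `θ = x + ...`: for fixed `v`, substitute `θ = x - (R(Bζ) - C w)`...
(careful with signs: `ỹ - Lθ = ζ + L u`, `u = x - θ = C w - R (B ζ)`), the inner integral is
`|det C| (2πv)^(k/2) v^(...) exp(-(‖Bζ‖² + S)/(2v))`, then the Gamma integral
`∫_0^∞ v^(-a-1) e^{-r/(2v)} dv = Γ(a) (r/2)^(-a)`, `a = (m(1-s)+ν)/2`, `r = S + ‖Bζ‖²`
(`v = 1/t`; `Real.integral_rpow_mul_exp_neg_mul_Ioi`). -/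
def S_BAYES : Prop := ∀ (k m ν : ℕ) (s : ℝ), 0 < ν → 0 ≤ s → s < 1 →
  ∀ (L : E k →L[ℝ] E m) (B : E m ≃L[ℝ] E m) (C : E k ≃L[ℝ] E k) (R : E m →L[ℝ] E k),
  Square s L B C R →
  ∃ c : ℝ, 0 < c ∧ ∀ (x : E k) (S : ℝ), 0 < S → ∀ yt : E m,
    ∫ v in Ioi (0 : ℝ), ∫ θ : E k,
      v ^ (-((m : ℝ) * (1 - s) + k + ν) / 2 - 1) *
        Real.exp (-((1 - s) * ‖yt - L θ‖ ^ 2 + ‖x - θ‖ ^ 2 + S) / (2 * v)) =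
    c * (S + ‖B (yt - L x)‖ ^ 2) ^ (-((m : ℝ) * (1 - s) + ν) / 2)

end Pool.Agent.L7h38.PD
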