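/-
Project PD (MP_4845bf_pr): the core inequality, assembled from its parts.
-/
import Pool.Agent.L7h38.PD.Stm

open MeasureTheory Set Filter Topology
open scoped RealInnerProductSpace ENNReal

namespace Pool.Agent.L7h38.PD

variable {m k : ℕ}

/-! ### Elementary facts on `ψ` -/

lemma den_pos {K S : ℝ} (hK : 0 < K) (hS : 0 < S) (x : E k) : 0 < K * S + ‖x‖ ^ 2 := by
  positivity

lemma psi_pos {K S : ℝ} (hK : 0 < K) (hS : 0 < S) (x : E k) : 0 < psi K S x := by
  unfold psi; have := den_pos hK hS x; positivity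

lemma psi_le_one {K S : ℝ} (hK : 0 < K) (hS : 0 < S) (x : E k) : psi K S x ≤ 1 := by
  unfold psi
  rw [div_le_one (den_pos hK hS x)]
  have : 0 ≤ ‖x‖ ^ 2 := by positivity
  linarith

/-- `j = ψ² ‖x‖² / S`. -/
noncomputable def jj (K S : ℝ) (x : E k) : ℝ := psi K S x ^ 2 * ‖x‖ ^ 2 / S

lemma jj_nonneg {K S : ℝ} (hS : 0 < S) (x : E k) : 0 ≤ jj K S x := by
  unfold jj; positivity

lemma jj_le {K S : ℝ} (hK : 0 < K) (hS : 0 < S) (x : E k) : jj K S x ≤ K := by
  have hd := den_pos hK hS x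
  have h1 := psi_le_one hK hS x
  have h0 := (psi_pos hK hS x).le
  have h2 : jj K S x = psi K S x * (K * (‖x‖ ^ 2 / (K * S + ‖x‖ ^ 2))) := by
    unfold jj psi
    field_simp
  have h3 : ‖x‖ ^ 2 / (K * S + ‖x‖ ^ 2) ≤ 1 := by
    rw [div_le_one hd]; have : 0 < K * S := by positivity
    linarith
  have h4 : 0 ≤ ‖x‖ ^ 2 / (K * S + ‖x‖ ^ 2) := by positivity
  rw [h2]
  calc psi K S x * (K * (‖x‖ ^ 2 / (K * S + ‖x‖ ^ 2)))
      ≤ 1 * (K * 1) := by
        apply mul_le_mul h1 _ (by positivity) (by norm_num)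
        exact mul_le_mul_of_nonneg_left h3 hK.le
    _ = K := by ring

lemma dS_eq {K S : ℝ} (hK : 0 < K) (hS : 0 < S) (x : E k) : dS K S x = jj K S x / K := by
  have hd := den_pos hK hS x
  unfold jj psi dS
  field_simp

lemma rx_le (R : E m →L[ℝ] E k) (x : E k) : rx R x ≤ ‖R‖ ^ 2 * ‖x‖ ^ 2 := by
  have h1 : rx R x = ‖ContinuousLinearMap.adjoint R x‖ ^ 2 := by
    unfold rx
    rw [EuclideanSpace.norm_sq_eq]
    refine Finset.sum_congr rfl fun i _ => ?_
    rw [← ContinuousLinearMap.adjoint_inner_left]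
    rw [EuclideanSpace.inner_single_right]
    simp
  rw [h1, ← mul_pow]
  have h2 : ‖ContinuousLinearMap.adjoint R x‖ ≤ ‖R‖ * ‖x‖ := by
    have := (ContinuousLinearMap.adjoint R).le_opNorm x
    rwa [LinearIsometryEquiv.norm_map] at this
  exact pow_le_pow_left₀ (norm_nonneg _) h2 2

lemma rx_nonneg (R : E m →L[ℝ] E k) (x : E k) : 0 ≤ rx R x := by
  unfold rx; positivity

lemma tau_nonneg (R : E m →L[ℝ] E k) : 0 ≤ tau R := by
  unfold tau; positivity

lemma tau_pos (R : E m →L[ℝ] E k) (hR : R ≠ 0) : 0 < tau R := by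
  rcases (tau_nonneg R).lt_or_eq with h | h
  · exact h
  · exfalso
    apply hR
    unfold tau at h
    have h' := (Finset.sum_eq_zero_iff_of_nonneg (fun i _ => by positivity)).mp h.symm
    ext x : 1
    have hx : x = ∑ i, x i • EuclideanSpace.single i (1 : ℝ) := by
      ext j
      simp [Finset.sum_apply, Pi.single_apply]
    rw [hx, map_sum]
    simp only [map_smul, zero_apply]
    refine Finset.sum_eq_zero fun i hi => ?_
    have := h' i hi
    have h2 : R (EuclideanSpace.single i (1:ℝ)) = 0 := by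
      rw [← norm_eq_zero]; exact pow_eq_zero_iff (two_ne_zero) |>.mp this
    rw [h2, smul_zero]

lemma lap_ge {K S : ℝ} (hK : 0 < K) (hS : 0 < S) (R : E m →L[ℝ] E k) (x : E k) :
    (1 / K) * (tau R / 2 * psi K S x ^ 2 - 2 * ‖R‖ ^ 2 / K * jj K S x) ≤
      -(S / 4 * lap K S R x) := by
  have hd := den_pos hK hS x
  have h1 : -(S / 4 * lap K S R x) = (1 / K) * (tau R / 2 * psi K S x ^ 2 -
      2 * psi K S x ^ 2 * (rx R x / (K * S + ‖x‖ ^ 2))) := by
    unfold lap psi
    field_simp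
    ring
  rw [h1]
  apply mul_le_mul_of_nonneg_left _ (by positivity)
  apply sub_le_sub_left
  have h2 : rx R x / (K * S + ‖x‖ ^ 2) ≤ ‖R‖ ^ 2 * ‖x‖ ^ 2 / (K * S) := by
    apply div_le_div₀ (by positivity) (rx_le R x) (by positivity)
    have : 0 ≤ ‖x‖ ^ 2 := by positivity
    linarith
  calc 2 * psi K S x ^ 2 * (rx R x / (K * S + ‖x‖ ^ 2))
      ≤ 2 * psi K S x ^ 2 * (‖R‖ ^ 2 * ‖x‖ ^ 2 / (K * S)) :=
        mul_le_mul_of_nonneg_left h2 (by positivity)
    _ = 2 * ‖R‖ ^ 2 / K * jj K S x := by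
        unfold jj; field_simp

/-- `|S lap| ≤ C`. -/
lemma abs_lap_le {K S : ℝ} (hK : 0 < K) (hS : 0 < S) (R : E m →L[ℝ] E k) (x : E k) :
    |S / 4 * lap K S R x| ≤ (tau R + 4 * ‖R‖ ^ 2) / K := by
  have hd := den_pos hK hS x
  have ht := tau_nonneg R
  have h1 : S / 4 * lap K S R x = (1 / K) * (-(tau R / 2 * psi K S x ^ 2) +
      2 * psi K S x ^ 2 * (rx R x / (K * S + ‖x‖ ^ 2))) := by
    unfold lap psi
    field_simp
    ring
  have hp := psi_le_one hK hS x
  have hp0 := (psi_pos hK hS x).le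
  have hp2 : psi K S x ^ 2 ≤ 1 := pow_le_one₀ hp0 hp
  have h2 : rx R x / (K * S + ‖x‖ ^ 2) ≤ ‖R‖ ^ 2 := by
    rw [div_le_iff₀ hd]
    have h3 := rx_le R x
    have h4 : 0 ≤ ‖R‖ ^ 2 * (K * S) := by positivity
    nlinarith
  have h20 : 0 ≤ rx R x / (K * S + ‖x‖ ^ 2) := div_nonneg (rx_nonneg R x) hd.le
  have h5 : 2 * psi K S x ^ 2 * (rx R x / (K * S + ‖x‖ ^ 2)) ≤ 2 * 1 * ‖R‖ ^ 2 := by
    apply mul_le_mul (by linarith) h2 h20 (by norm_num)
  have h50 : 0 ≤ 2 * psi K S x ^ 2 * (rx R x / (K * S + ‖x‖ ^ 2)) := by positivity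
  have h6 : tau R / 2 * psi K S x ^ 2 ≤ tau R / 2 * 1 :=
    mul_le_mul_of_nonneg_left hp2 (by positivity)
  have h60 : 0 ≤ tau R / 2 * psi K S x ^ 2 := by positivity
  rw [h1, abs_mul, abs_of_pos (by positivity : 0 < 1 / K)]
  rw [show (tau R + 4 * ‖R‖ ^ 2) / K = 1 / K * (tau R + 4 * ‖R‖ ^ 2) by ring]
  apply mul_le_mul_of_nonneg_left _ (by positivity)
  rw [abs_le]
  constructor <;> nlinarith [sq_nonneg ‖R‖]

/-! ### Measurability -/

instance sfinite_mu2 (m : ℕ) : SFinite (mu2 m) := by unfold mu2; infer_instance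

instance sfinite_mu (m k : ℕ) : SFinite (mu m k) := by unfold mu; infer_instance

lemma measurable_Om (κ : ℝ) : Measurable (Om κ) := by
  have h : Om κ = fun T => ∫ t, (if T < t then vpi κ t else 0) := by
    funext T
    unfold Om
    rw [← integral_indicator measurableSet_Ioi]
    rfl
  rw [h]
  have hm : StronglyMeasurable (fun p : ℝ × ℝ => if p.1 < p.2 then vpi κ p.2 else 0) := by
    apply Measurable.stronglyMeasurable
    refine Measurable.ite (measurableSet_lt measurable_fst measurable_snd) ?_ measurable_const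
    unfold vpi
    fun_prop
  exact hm.integral_prod_right.measurable

lemma measurable_vpi (κ : ℝ) : Measurable (vpi κ) := by
  unfold vpi; fun_prop

lemma measurable_psi {α : Type*} [MeasurableSpace α] {K : ℝ} {f : α → ℝ} {g : α → E k}
    (hf : Measurable f) (hg : Measurable g) : Measurable (fun a => psi K (f a) (g a)) := by
  unfold psi; fun_prop

lemma measurable_jj {α : Type*} [MeasurableSpace α] {K : ℝ} {f : α → ℝ} {g : α → E k}
    (hf : Measurable f) (hg : Measurable g) : Measurable (fun a => jj K (f a) (g a)) := by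
  unfold jj
  have := measurable_psi (K := K) hf hg
  fun_prop

lemma measurable_dS {α : Type*} [MeasurableSpace α] {K : ℝ} {f : α → ℝ} {g : α → E k}
    (hf : Measurable f) (hg : Measurable g) : Measurable (fun a => dS K (f a) (g a)) := by
  unfold dS; fun_prop

lemma measurable_lap {α : Type*} [MeasurableSpace α] {K : ℝ} (R : E m →L[ℝ] E k) {f : α → ℝ}
    {g : α → E k} (hf : Measurable f) (hg : Measurable g) :
    Measurable (fun a => lap K (f a) R (g a)) := by
  unfold lap rx; fun_prop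

lemma measurable_xx (θ : E k) (R : E m →L[ℝ] E k) (C : E k ≃L[ℝ] E k) :
    Measurable (xx θ R C) := by
  unfold xx
  have h1 : Measurable (fun p : ℝ × E m × E k => C p.2.2) :=
    C.continuous.measurable.comp (measurable_snd.comp measurable_snd)
  have h2 : Measurable (fun p : ℝ × E m × E k => R p.2.1) :=
    R.continuous.measurable.comp (measurable_fst.comp measurable_snd)
  exact (measurable_const.sub h2).add h1

lemma measurable_TT : Measurable (TT : ℝ × E m × E k → ℝ) := by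
  unfold TT; fun_prop

lemma ae_mu (m k : ℕ) : ∀ᵐ p ∂(mu m k), (0 : ℝ) < p.1 := by
  unfold mu
  have h : ∀ᵐ S ∂(volume.restrict (Ioi (0:ℝ))), (0:ℝ) < S :=
    ae_restrict_mem measurableSet_Ioi
  exact Measure.quasiMeasurePreserving_fst.ae h

lemma ae_mu2 (m : ℕ) : ∀ᵐ p ∂(mu2 m), (0 : ℝ) < p.1 := by
  unfold mu2
  have h : ∀ᵐ S ∂(volume.restrict (Ioi (0:ℝ))), (0:ℝ) < S :=
    ae_restrict_mem measurableSet_Ioi
  exact Measure.quasiMeasurePreserving_fst.ae h

lemma TT_pos {p : ℝ × E m × E k} (hp : 0 < p.1) : 0 < TT p := by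
  unfold TT; positivity

/-- The dominating function. -/
noncomputable def bd (b η c : ℝ) (N : ℕ) (p : ℝ × E m × E k) : ℝ :=
  p.1 ^ (b - 1) * (TT p) ^ (-η) * Real.exp (-c * TT p) * Real.exp (-‖p.2.2‖ ^ 2 / 2) *
    (1 + TT p + ‖p.2.2‖ ^ 2) ^ N

lemma int_of_bound (hINT : S_INT) {b η c : ℝ} (hb : 0 < b) (hη : 0 ≤ η)
    (hη2 : η < b + (m : ℝ) / 2) (hc : 0 < c) (N : ℕ) {f : ℝ × E m × E k → ℝ}
    (hf : Measurable f) (C : ℝ) (hb' : ∀ p, 0 < p.1 → |f p| ≤ C * bd b η c N p) :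
    Integrable f (mu m k) := by
  refine Integrable.mono' ((hINT m k b η c hb hη hη2 hc N).const_mul C)
    hf.aestronglyMeasurable ?_
  filter_upwards [ae_mu m k] with p hp
  rw [Real.norm_eq_abs]
  exact hb' p hp

/-- Reordering the integral: `∫_mu f = ∫_w ∫_{mu2} f`. -/
lemma integral_mu {f : ℝ × E m × E k → ℝ} (hf : Integrable f (mu m k)) :
    ∫ p, f p ∂(mu m k) = ∫ w : E k, ∫ q : ℝ × E m, f (q.1, q.2, w) ∂(mu2 m) := by
  have hmp : MeasurePreserving (MeasurableEquiv.prodAssoc : (ℝ × E m) × E k ≃ᵐ ℝ × E m × E k)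
      ((mu2 m).prod (volume : Measure (E k))) (mu m k) := by
    unfold mu mu2
    exact measurePreserving_prodAssoc _ _ _
  have h1 := hmp.integral_comp' (g := f)
  rw [← h1]
  have h2 : Integrable (fun a : (ℝ × E m) × E k => f (MeasurableEquiv.prodAssoc a))
      ((mu2 m).prod (volume : Measure (E k))) :=
    (hmp.integrable_comp_emb (MeasurableEquiv.measurableEmbedding _)).mpr hf
  rw [integral_prod_symm _ h2]
  rfl

lemma integrable_slice {f : ℝ × E m × E k → ℝ} (hf : Integrable f (mu m k)) :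
    Integrable (fun w : E k => ∫ q : ℝ × E m, f (q.1, q.2, w) ∂(mu2 m)) := by
  have hmp : MeasurePreserving (MeasurableEquiv.prodAssoc : (ℝ × E m) × E k ≃ᵐ ℝ × E m × E k)
      ((mu2 m).prod (volume : Measure (E k))) (mu m k) := by
    unfold mu mu2
    exact measurePreserving_prodAssoc _ _ _
  have h2 : Integrable (fun a : (ℝ × E m) × E k => f (MeasurableEquiv.prodAssoc a))
      ((mu2 m).prod (volume : Measure (E k))) :=
    (hmp.integrable_comp_emb (MeasurableEquiv.measurableEmbedding _)).mpr hf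
  exact h2.integral_prod_right

/-- `∫⁻_mu f = ∫⁻_S ∫⁻_z ∫⁻_w f`. -/
lemma lintegral_mu {f : ℝ × E m × E k → ℝ≥0∞} (hf : Measurable f) :
    ∫⁻ p, f p ∂(mu m k) = ∫⁻ S in Ioi (0:ℝ), ∫⁻ z : E m, ∫⁻ w : E k, f (S, z, w) := by
  unfold mu
  rw [lintegral_prod _ hf.aemeasurable]
  refine lintegral_congr fun S => ?_
  rw [lintegral_prod _ (by fun_prop)]

end Pool.Agent.L7h38.PD
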