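/-
Project PD (MP_4845bf_pr): assembly of the core inequality.
-/
import Pool.Agent.L7h38.PD.Core

open MeasureTheory Set Filter Topology
open scoped RealInnerProductSpace ENNReal

namespace Pool.Agent.L7h38.PD

variable {m k : ℕ}

lemma T_vpi (κ : ℝ) {T : ℝ} (hT : 0 < T) :
    T * vpi κ T = T ^ (-κ) * Real.exp (-(1 / 2) * T) := by
  unfold vpi
  rw [← mul_assoc]
  congr 1
  · nth_rewrite 1 [← Real.rpow_one T]
    rw [← Real.rpow_add hT]
    congr 1; ring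
  · congr 1; ring

lemma z_le_T (p : ℝ × E m × E k) (hp : 0 < p.1) : ‖p.2.1‖ ^ 2 ≤ TT p := by
  unfold TT; linarith

lemma S_le_T (p : ℝ × E m × E k) : p.1 ≤ TT p := by
  unfold TT; have : 0 ≤ ‖p.2.1‖ ^ 2 := by positivity
  linarith

lemma vpi_pos (κ : ℝ) {T : ℝ} (hT : 0 < T) : 0 < vpi κ T := by
  unfold vpi; positivity

lemma measurable_HH (R : E m →L[ℝ] E k) (C : E k ≃L[ℝ] E k) {j : E k → ℝ≥0∞} (hj : Measurable j)
    (θ : E k) : Measurable (HH R C j θ) := by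
  unfold HH
  apply Measurable.lintegral_prod_right' (f := fun p : E m × E k => j (θ - R p.1 + C p.2) *
    ENNReal.ofReal (Real.exp (-‖p.2‖ ^ 2 / 2)))
  apply Measurable.mul
  · apply hj.comp
    have h1 : Measurable (fun p : E m × E k => C p.2) :=
      C.continuous.measurable.comp measurable_snd
    have h2 : Measurable (fun p : E m × E k => R p.1) :=
      R.continuous.measurable.comp measurable_fst
    exact (measurable_const.sub h2).add h1
  · fun_prop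

/-- The comparison of the two averaged integrals. -/
lemma ball_step {κ b K C₂ : ℝ} (hOM : S_OM) (hCOSH : S_COSH) (hκ : 0 ≤ κ)
    (hC₂ : 0 < C₂) (R : E m →L[ℝ] E k) (C : E k ≃L[ℝ] E k) (θ : E k)
    (hball : ∀ S : ℝ, 0 < S → ∀ H : E m → ℝ≥0∞, Measurable H →
      (∀ (t : ℝ) (z : E m), 0 ≤ t → t ≤ 1 →
        H (t • z) + H (-(t • z)) ≤ ENNReal.ofReal
          (Real.exp (‖(C.symm : E k →L[ℝ] E k).comp R‖ ^ 2 / 2 * ‖z‖ ^ 2)) * (H z + H (-z))) →
      ∫⁻ z : E m, ENNReal.ofReal (Om κ (S + ‖z‖ ^ 2)) * H z ≤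
        ENNReal.ofReal C₂ *
          ∫⁻ z : E m, ENNReal.ofReal (‖z‖ ^ 2 * vpi κ (S + ‖z‖ ^ 2)) * H z)
    (hA : Integrable (fun p : ℝ × E m × E k => p.1 ^ (b - 1) * (‖p.2.1‖ ^ 2 * vpi κ (TT p)) *
      jj K p.1 (xx θ R C p) * Real.exp (-‖p.2.2‖ ^ 2 / 2)) (mu m k))
    (hCt : Integrable (fun p : ℝ × E m × E k => p.1 ^ (b - 1) * Om κ (TT p) *
      jj K p.1 (xx θ R C p) * Real.exp (-‖p.2.2‖ ^ 2 / 2)) (mu m k)) :
    ∫ p : ℝ × E m × E k, p.1 ^ (b - 1) * Om κ (TT p) *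
      jj K p.1 (xx θ R C p) * Real.exp (-‖p.2.2‖ ^ 2 / 2) ∂(mu m k) ≤
    C₂ * ∫ p : ℝ × E m × E k, p.1 ^ (b - 1) * (‖p.2.1‖ ^ 2 * vpi κ (TT p)) *
      jj K p.1 (xx θ R C p) * Real.exp (-‖p.2.2‖ ^ 2 / 2) ∂(mu m k) := by
  obtain ⟨hOM1, -, -⟩ := hOM κ hκ
  -- generic slice formula
  have key : ∀ (G : ℝ → E m → ℝ), Measurable (fun p : ℝ × E m => G p.1 p.2) →
      (∀ S z, 0 < S → 0 ≤ G S z) →
      ∫⁻ p : ℝ × E m × E k, ENNReal.ofReal (p.1 ^ (b - 1) * G p.1 p.2.1 *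
        jj K p.1 (xx θ R C p) * Real.exp (-‖p.2.2‖ ^ 2 / 2)) ∂(mu m k) =
      ∫⁻ S in Ioi (0:ℝ), ENNReal.ofReal (S ^ (b - 1)) * ∫⁻ z : E m, ENNReal.ofReal (G S z) *
        HH R C (fun x => ENNReal.ofReal (jj K S x)) θ z := by
    intro G hG hG0
    have hGm : Measurable (fun p : ℝ × E m × E k => G p.1 p.2.1) :=
      hG.comp (measurable_fst.prodMk (measurable_fst.comp measurable_snd))
    have hjm : Measurable (fun p : ℝ × E m × E k => jj K p.1 (xx θ R C p)) :=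
      measurable_jj measurable_fst (measurable_xx θ R C)
    rw [lintegral_mu (by fun_prop)]
    refine setLIntegral_congr_fun measurableSet_Ioi fun S hS => ?_
    have hS' : (0:ℝ) < S := hS
    have hjS : Measurable (fun x : E k => ENNReal.ofReal (jj K S x)) :=
      (measurable_jj (K := K) measurable_const measurable_id).ennreal_ofReal
    have hHm := measurable_HH R C hjS θ
    have hGS : Measurable (fun z : E m => G S z) :=
      hG.comp (measurable_const.prodMk measurable_id)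
    beta_reduce
    have hm1 : Measurable (fun z : E m => ENNReal.ofReal (G S z) *
        HH R C (fun x => ENNReal.ofReal (jj K S x)) θ z) := hGS.ennreal_ofReal.mul hHm
    rw [← lintegral_const_mul _ hm1]
    refine lintegral_congr fun z => ?_
    unfold HH
    have hS0 : (0:ℝ) ≤ S ^ (b - 1) := by positivity
    have hxm : Measurable (fun w : E k => θ - R z + C w) :=
      measurable_const.add C.continuous.measurable
    rw [← lintegral_const_mul _ (by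
      apply Measurable.mul (hjS.comp hxm); fun_prop), ← lintegral_const_mul _ (by
      apply Measurable.const_mul
      apply Measurable.mul (hjS.comp hxm); fun_prop)]
    refine lintegral_congr fun w => ?_
    have hj0 := jj_nonneg (K := K) hS' (xx θ R C (S, z, w))
    rw [ENNReal.ofReal_mul (by have := hG0 S z hS'; positivity),
      ENNReal.ofReal_mul (by have := hG0 S z hS'; positivity), ENNReal.ofReal_mul hS0]
    simp only [xx]
    ring
  have hmOm := measurable_Om κ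
  have hmv := measurable_vpi κ
  have k1 := key (fun S z => Om κ (S + ‖z‖ ^ 2)) (by fun_prop)
    (fun S z hS => (hOM1 _ (by positivity)).2.2.2.2.1.le)
  have k2 := key (fun S z => ‖z‖ ^ 2 * vpi κ (S + ‖z‖ ^ 2)) (by fun_prop)
    (fun S z hS => by have := (hOM1 (S + ‖z‖ ^ 2) (by positivity)).1; positivity)
  have hle : ∫⁻ p : ℝ × E m × E k, ENNReal.ofReal (p.1 ^ (b - 1) * Om κ (TT p) *
        jj K p.1 (xx θ R C p) * Real.exp (-‖p.2.2‖ ^ 2 / 2)) ∂(mu m k) ≤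
      ENNReal.ofReal C₂ * ∫⁻ p : ℝ × E m × E k, ENNReal.ofReal (p.1 ^ (b - 1) *
        (‖p.2.1‖ ^ 2 * vpi κ (TT p)) * jj K p.1 (xx θ R C p) *
        Real.exp (-‖p.2.2‖ ^ 2 / 2)) ∂(mu m k) := by
    unfold TT
    rw [k1, k2]
    rw [← lintegral_const_mul']
    swap
    · exact ENNReal.ofReal_ne_top
    refine setLIntegral_mono' measurableSet_Ioi fun S hS => ?_
    have hS' : (0:ℝ) < S := hS
    have hjS : Measurable (fun x : E k => ENNReal.ofReal (jj K S x)) :=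
      (measurable_jj (K := K) measurable_const measurable_id).ennreal_ofReal
    have := hball S hS' (HH R C (fun x => ENNReal.ofReal (jj K S x)) θ) (measurable_HH R C hjS θ)
      (fun t z ht ht1 => hCOSH m k R C _ hjS θ t z ht ht1)
    calc _ ≤ ENNReal.ofReal (S ^ (b - 1)) * (ENNReal.ofReal C₂ * _) := by gcongr
      _ = _ := by ring
  have hnnA : 0 ≤ᵐ[mu m k] (fun p : ℝ × E m × E k => p.1 ^ (b - 1) *
      (‖p.2.1‖ ^ 2 * vpi κ (TT p)) * jj K p.1 (xx θ R C p) * Real.exp (-‖p.2.2‖ ^ 2 / 2)) := by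
    filter_upwards [ae_mu m k] with p hp
    have h1 := (vpi_pos κ (TT_pos hp)).le
    have h2 := jj_nonneg (K := K) hp (xx θ R C p)
    simp only [Pi.zero_apply]
    positivity
  have hnnC : 0 ≤ᵐ[mu m k] (fun p : ℝ × E m × E k => p.1 ^ (b - 1) * Om κ (TT p) *
      jj K p.1 (xx θ R C p) * Real.exp (-‖p.2.2‖ ^ 2 / 2)) := by
    filter_upwards [ae_mu m k] with p hp
    have h1 := (hOM1 _ (TT_pos hp)).2.2.2.2.1.le
    have h2 := jj_nonneg (K := K) hp (xx θ R C p)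
    simp only [Pi.zero_apply]
    positivity
  have hnn : 0 ≤ ∫ p : ℝ × E m × E k, p.1 ^ (b - 1) * (‖p.2.1‖ ^ 2 * vpi κ (TT p)) *
      jj K p.1 (xx θ R C p) * Real.exp (-‖p.2.2‖ ^ 2 / 2) ∂(mu m k) := integral_nonneg_of_ae hnnA
  rw [← ofReal_integral_eq_lintegral_ofReal hCt hnnC,
    ← ofReal_integral_eq_lintegral_ofReal hA hnnA, ← ENNReal.ofReal_mul hC₂.le] at hle
  exact (ENNReal.ofReal_le_ofReal_iff (by positivity)).mp hle

theorem s_CORE_of (hINT : S_INT) (hOM : S_OM) (hIBP : S_IBP) (hCOSH : S_COSH) (hBALL : S_BALL)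
    (hLOW : S_LOW) (hUP : S_UP) : S_CORE := by
  intro m k b κ hb hκ hκ2 R C hR
  have hm : 0 < m := by
    rcases Nat.eq_zero_or_pos m with h | h
    · subst h; exfalso; apply hR; ext x : 1
      have : x = 0 := Subsingleton.elim _ _
      simp [this]
    · exact h
  have hRn : 0 < ‖R‖ := norm_pos_iff.mpr hR
  have hτ := tau_pos R hR
  obtain ⟨C₂, hC₂, hball⟩ := hBALL m κ (‖(C.symm : E k →L[ℝ] E k).comp R‖ ^ 2 / 2) hm hκ
    (by positivity)
  obtain ⟨K, hKdef⟩ : ∃ K : ℝ, K = 2 * ‖R‖ ^ 2 * C₂ := ⟨_, rfl⟩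
  have hK : 0 < K := by rw [hKdef]; positivity
  obtain ⟨c, hc, hlow⟩ := hLOW m k b κ K hb hκ hκ2 hK R C
  obtain ⟨C₁, hC₁, hup⟩ := hUP m k b κ K hb hκ hκ2 hK R C
  obtain ⟨hOM1, -, hOM3⟩ := hOM κ hκ
  obtain ⟨η, hη1, hη2⟩ := exists_between hκ2
  obtain ⟨Cη, hCη, hOmb⟩ := hOM3 η hη1
  have hη0 : 0 ≤ η := hκ.trans hη1.le
  obtain ⟨δ, hδdef⟩ : ∃ δ : ℝ, δ = min (1 / 2) (tau R * c / (8 * K * b * C₁)) := ⟨_, rfl⟩
  have hδ : 0 < δ := by rw [hδdef]; positivity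
  have hδ2 : δ ≤ 1 / 2 := by rw [hδdef]; exact min_le_left _ _
  have hδ3 : 2 * b * δ * C₁ ≤ tau R * c / (4 * K) := by
    have h1 : δ ≤ tau R * c / (8 * K * b * C₁) := by rw [hδdef]; exact min_le_right _ _
    calc 2 * b * δ * C₁ ≤ 2 * b * (tau R * c / (8 * K * b * C₁)) * C₁ := by gcongr
      _ = tau R * c / (4 * K) := by field_simp; ring
  refine ⟨K, hK, δ, hδ, hδ2, fun θ => ?_⟩
  have hmOm := measurable_Om κ
  have hmv := measurable_vpi κ
  have hmT := measurable_TT (m := m) (k := k)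
  have hmpsi : Measurable (fun p : ℝ × E m × E k => psi K p.1 (xx θ R C p)) :=
    measurable_psi measurable_fst (measurable_xx θ R C)
  have hmjj : Measurable (fun p : ℝ × E m × E k => jj K p.1 (xx θ R C p)) :=
    measurable_jj measurable_fst (measurable_xx θ R C)
  have hmdS : Measurable (fun p : ℝ × E m × E k => dS K p.1 (xx θ R C p)) :=
    measurable_dS measurable_fst (measurable_xx θ R C)
  have hmlap : Measurable (fun p : ℝ × E m × E k => lap K p.1 R (xx θ R C p)) :=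
    measurable_lap R measurable_fst (measurable_xx θ R C)
  -- pointwise bounds
  have hbd0 : ∀ p : ℝ × E m × E k, 0 < p.1 →
      bd b κ (1 / 2) 0 p = p.1 ^ (b - 1) * (TT p * vpi κ (TT p)) *
        Real.exp (-‖p.2.2‖ ^ 2 / 2) := by
    intro p hp
    unfold bd
    rw [T_vpi κ (TT_pos hp), pow_zero]
    ring
  have hbd1 : ∀ p : ℝ × E m × E k, 0 < p.1 →
      p.1 ^ (b - 1) * Om κ (TT p) * Real.exp (-‖p.2.2‖ ^ 2 / 2) ≤
        Cη * bd b η (1 / 4) 0 p := by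
    intro p hp
    unfold bd
    have h1 := hOmb _ (TT_pos hp)
    rw [pow_zero]
    have h2 : 0 ≤ p.1 ^ (b - 1) := by positivity
    calc p.1 ^ (b - 1) * Om κ (TT p) * Real.exp (-‖p.2.2‖ ^ 2 / 2)
        ≤ p.1 ^ (b - 1) * (Cη * (TT p ^ (-η) * Real.exp (-(1 / 4) * TT p))) *
          Real.exp (-‖p.2.2‖ ^ 2 / 2) := by gcongr
      _ = _ := by ring
  -- integrability
  have iF1 : Integrable (fun p : ℝ × E m × E k => wt b κ p *
      ((((m : ℝ) / 2) * p.1 - b * ‖p.2.1‖ ^ 2) * psi K p.1 (xx θ R C p))) (mu m k) := by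
    refine int_of_bound hINT hb hκ hκ2 (by norm_num : (0:ℝ) < 1/2) 0
      (by unfold wt; fun_prop) ((m:ℝ)/2 + b) fun p hp => ?_
    rw [hbd0 p hp]
    unfold wt
    have hv := (vpi_pos κ (TT_pos hp)).le
    have hT := (TT_pos hp).le
    have hp1 := psi_le_one hK hp (xx θ R C p)
    have hp0 := (psi_pos hK hp (xx θ R C p)).le
    have h1 : |((m : ℝ) / 2) * p.1 - b * ‖p.2.1‖ ^ 2| ≤ ((m:ℝ)/2 + b) * TT p := by
      have e1 := S_le_T p
      have e2 := z_le_T p hp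
      have e3 : (0:ℝ) ≤ (m:ℝ)/2 := by positivity
      have e4 : 0 ≤ ‖p.2.1‖ ^ 2 := by positivity
      rw [abs_le]
      constructor <;> nlinarith
    have h2 : 0 ≤ p.1 ^ (b - 1) := by positivity
    rw [abs_mul, abs_mul (((m : ℝ) / 2) * p.1 - b * ‖p.2.1‖ ^ 2), abs_of_nonneg hp0,
      abs_of_nonneg (by positivity)]
    calc p.1 ^ (b - 1) * vpi κ (TT p) * Real.exp (-‖p.2.2‖ ^ 2 / 2) *
          (|((m : ℝ) / 2) * p.1 - b * ‖p.2.1‖ ^ 2| * psi K p.1 (xx θ R C p))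
        ≤ p.1 ^ (b - 1) * vpi κ (TT p) * Real.exp (-‖p.2.2‖ ^ 2 / 2) *
          ((((m:ℝ)/2 + b) * TT p) * 1) := by gcongr
      _ = _ := by ring
  have iF2 : Integrable (fun p : ℝ × E m × E k => wt b κ p * TT p *
      psi K p.1 (xx θ R C p) ^ 2) (mu m k) := by
    refine int_of_bound hINT hb hκ hκ2 (by norm_num : (0:ℝ) < 1/2) 0
      (by unfold wt; fun_prop) 1 fun p hp => ?_
    rw [hbd0 p hp]
    unfold wt
    have hv := (vpi_pos κ (TT_pos hp)).le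
    have hT := (TT_pos hp).le
    have hp1 := psi_le_one hK hp (xx θ R C p)
    have hp0 := (psi_pos hK hp (xx θ R C p)).le
    have hp2 : psi K p.1 (xx θ R C p) ^ 2 ≤ 1 := pow_le_one₀ hp0 hp1
    have h2 : 0 ≤ p.1 ^ (b - 1) := by positivity
    rw [abs_of_nonneg (by positivity)]
    calc p.1 ^ (b - 1) * vpi κ (TT p) * Real.exp (-‖p.2.2‖ ^ 2 / 2) * TT p *
          psi K p.1 (xx θ R C p) ^ 2
        ≤ p.1 ^ (b - 1) * vpi κ (TT p) * Real.exp (-‖p.2.2‖ ^ 2 / 2) * TT p * 1 := by gcongr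
      _ = _ := by ring
  have iA : Integrable (fun p : ℝ × E m × E k => p.1 ^ (b - 1) * (‖p.2.1‖ ^ 2 * vpi κ (TT p)) *
      jj K p.1 (xx θ R C p) * Real.exp (-‖p.2.2‖ ^ 2 / 2)) (mu m k) := by
    refine int_of_bound hINT hb hκ hκ2 (by norm_num : (0:ℝ) < 1/2) 0
      (by fun_prop) K fun p hp => ?_
    rw [hbd0 p hp]
    have hv := (vpi_pos κ (TT_pos hp)).le
    have hT := (TT_pos hp).le
    have hj1 := jj_le hK hp (xx θ R C p)
    have hj0 := jj_nonneg (K := K) hp (xx θ R C p)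
    have h2 : 0 ≤ p.1 ^ (b - 1) := by positivity
    have h3 := z_le_T p hp
    rw [abs_of_nonneg (by positivity)]
    calc p.1 ^ (b - 1) * (‖p.2.1‖ ^ 2 * vpi κ (TT p)) * jj K p.1 (xx θ R C p) *
          Real.exp (-‖p.2.2‖ ^ 2 / 2)
        ≤ p.1 ^ (b - 1) * (TT p * vpi κ (TT p)) * K * Real.exp (-‖p.2.2‖ ^ 2 / 2) := by gcongr
      _ = _ := by ring
  have iB : Integrable (fun p : ℝ × E m × E k => p.1 ^ (b - 1) * Om κ (TT p) *
      psi K p.1 (xx θ R C p) ^ 2 * Real.exp (-‖p.2.2‖ ^ 2 / 2)) (mu m k) := by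
    refine int_of_bound hINT hb hη0 hη2 (by norm_num : (0:ℝ) < 1/4) 0
      (by fun_prop) Cη fun p hp => ?_
    have hp1 := psi_le_one hK hp (xx θ R C p)
    have hp0 := (psi_pos hK hp (xx θ R C p)).le
    have hp2 : psi K p.1 (xx θ R C p) ^ 2 ≤ 1 := pow_le_one₀ hp0 hp1
    have h2 : 0 ≤ p.1 ^ (b - 1) := by positivity
    have h3 := (hOM1 _ (TT_pos hp)).2.2.2.2.1.le
    rw [abs_of_nonneg (by positivity)]
    refine le_trans ?_ (hbd1 p hp)
    calc p.1 ^ (b - 1) * Om κ (TT p) * psi K p.1 (xx θ R C p) ^ 2 *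
          Real.exp (-‖p.2.2‖ ^ 2 / 2)
        ≤ p.1 ^ (b - 1) * Om κ (TT p) * 1 * Real.exp (-‖p.2.2‖ ^ 2 / 2) := by gcongr
      _ = _ := by ring
  have iC : Integrable (fun p : ℝ × E m × E k => p.1 ^ (b - 1) * Om κ (TT p) *
      jj K p.1 (xx θ R C p) * Real.exp (-‖p.2.2‖ ^ 2 / 2)) (mu m k) := by
    refine int_of_bound hINT hb hη0 hη2 (by norm_num : (0:ℝ) < 1/4) 0
      (by fun_prop) (K * Cη) fun p hp => ?_
    have hj1 := jj_le hK hp (xx θ R C p)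
    have hj0 := jj_nonneg (K := K) hp (xx θ R C p)
    have h2 : 0 ≤ p.1 ^ (b - 1) := by positivity
    have h3 := (hOM1 _ (TT_pos hp)).2.2.2.2.1.le
    rw [abs_of_nonneg (by positivity), mul_assoc K]
    refine le_trans ?_ (mul_le_mul_of_nonneg_left (hbd1 p hp) hK.le)
    calc p.1 ^ (b - 1) * Om κ (TT p) * jj K p.1 (xx θ R C p) *
          Real.exp (-‖p.2.2‖ ^ 2 / 2)
        ≤ p.1 ^ (b - 1) * Om κ (TT p) * K * Real.exp (-‖p.2.2‖ ^ 2 / 2) := by gcongr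
      _ = _ := by ring
  have iG : Integrable (fun p : ℝ × E m × E k => p.1 ^ (b - 1) * (‖p.2.1‖ ^ 2 *
      vpi κ (TT p) * dS K p.1 (xx θ R C p) - p.1 / 4 * Om κ (TT p) *
      lap K p.1 R (xx θ R C p)) * Real.exp (-‖p.2.2‖ ^ 2 / 2)) (mu m k) := by
    have i1 : Integrable (fun p : ℝ × E m × E k => p.1 ^ (b - 1) * (‖p.2.1‖ ^ 2 *
      vpi κ (TT p)) * dS K p.1 (xx θ R C p) * Real.exp (-‖p.2.2‖ ^ 2 / 2)) (mu m k) := by
      refine (iA.const_mul (1 / K)).congr ?_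
      filter_upwards [ae_mu m k] with p hp
      rw [dS_eq hK hp]
      ring
    have i2 : Integrable (fun p : ℝ × E m × E k => p.1 ^ (b - 1) * (p.1 / 4 * Om κ (TT p) *
      lap K p.1 R (xx θ R C p)) * Real.exp (-‖p.2.2‖ ^ 2 / 2)) (mu m k) := by
      refine int_of_bound hINT hb hη0 hη2 (by norm_num : (0:ℝ) < 1/4) 0
        (by fun_prop) ((tau R + 4 * ‖R‖ ^ 2) / K * Cη) fun p hp => ?_
      have hl := abs_lap_le hK hp R (xx θ R C p)
      have h2 : 0 ≤ p.1 ^ (b - 1) := by positivity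
      have h3 := (hOM1 _ (TT_pos hp)).2.2.2.2.1.le
      have e : p.1 ^ (b - 1) * (p.1 / 4 * Om κ (TT p) *
        lap K p.1 R (xx θ R C p)) * Real.exp (-‖p.2.2‖ ^ 2 / 2) =
        (p.1 ^ (b - 1) * Om κ (TT p) * Real.exp (-‖p.2.2‖ ^ 2 / 2)) *
          (p.1 / 4 * lap K p.1 R (xx θ R C p)) := by ring
      have ht0 := tau_nonneg R
      have hbdn : 0 ≤ Cη * bd b η (1 / 4) 0 p := le_trans (by positivity) (hbd1 p hp)
      have h4 := mul_le_mul (hbd1 p hp) hl (abs_nonneg _) hbdn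
      rw [e, abs_mul, abs_of_nonneg (by positivity)]
      exact h4.trans (le_of_eq (by ring))
    refine (i1.sub i2).congr (Filter.Eventually.of_forall fun p => ?_)
    simp only [Pi.sub_apply]
    ring
  -- integration by parts, for every `w`
  have hIB : ∫ p : ℝ × E m × E k, wt b κ p *
      ((((m : ℝ) / 2) * p.1 - b * ‖p.2.1‖ ^ 2) * psi K p.1 (xx θ R C p)) ∂(mu m k) =
      ∫ p : ℝ × E m × E k, p.1 ^ (b - 1) * (‖p.2.1‖ ^ 2 *
      vpi κ (TT p) * dS K p.1 (xx θ R C p) - p.1 / 4 * Om κ (TT p) *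
      lap K p.1 R (xx θ R C p)) * Real.exp (-‖p.2.2‖ ^ 2 / 2) ∂(mu m k) := by
    rw [integral_mu iF1, integral_mu iG]
    refine integral_congr_ae (Filter.Eventually.of_forall fun w => ?_)
    have h := hIBP m k b κ K hb hκ hκ2 hK R (θ + C w)
    have hx : ∀ q : ℝ × E m, xx θ R C (q.1, q.2, w) = (θ + C w) - R q.2 := by
      intro q; unfold xx; abel
    simp only [hx, TT, wt]
    rw [integral_mul_const, ← h, ← integral_mul_const]
    refine integral_congr_ae (Filter.Eventually.of_forall fun q => ?_)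
    simp only
    ring
  -- pointwise lower bound
  have hGlow : ∫ p : ℝ × E m × E k, (1 / K) * (p.1 ^ (b - 1) * (‖p.2.1‖ ^ 2 * vpi κ (TT p)) *
      jj K p.1 (xx θ R C p) * Real.exp (-‖p.2.2‖ ^ 2 / 2) +
      tau R / 2 * (p.1 ^ (b - 1) * Om κ (TT p) *
      psi K p.1 (xx θ R C p) ^ 2 * Real.exp (-‖p.2.2‖ ^ 2 / 2)) -
      2 * ‖R‖ ^ 2 / K * (p.1 ^ (b - 1) * Om κ (TT p) *
      jj K p.1 (xx θ R C p) * Real.exp (-‖p.2.2‖ ^ 2 / 2))) ∂(mu m k) ≤
      ∫ p : ℝ × E m × E k, p.1 ^ (b - 1) * (‖p.2.1‖ ^ 2 *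
      vpi κ (TT p) * dS K p.1 (xx θ R C p) - p.1 / 4 * Om κ (TT p) *
      lap K p.1 R (xx θ R C p)) * Real.exp (-‖p.2.2‖ ^ 2 / 2) ∂(mu m k) := by
    apply integral_mono_ae
    · exact ((iA.add (iB.const_mul _)).sub (iC.const_mul _)).const_mul _
    · exact iG
    · filter_upwards [ae_mu m k] with p hp
      have hl := lap_ge hK hp R (xx θ R C p)
      have h2 : 0 ≤ p.1 ^ (b - 1) := by positivity
      have h3 := (hOM1 _ (TT_pos hp)).2.2.2.2.1.le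
      rw [dS_eq hK hp]
      have e := mul_le_mul_of_nonneg_left hl
        (by positivity : 0 ≤ p.1 ^ (b - 1) * Om κ (TT p) * Real.exp (-‖p.2.2‖ ^ 2 / 2))
      calc _ = p.1 ^ (b - 1) * (‖p.2.1‖ ^ 2 * vpi κ (TT p) * (jj K p.1 (xx θ R C p) / K)) *
            Real.exp (-‖p.2.2‖ ^ 2 / 2) +
            p.1 ^ (b - 1) * Om κ (TT p) * Real.exp (-‖p.2.2‖ ^ 2 / 2) *
            (1 / K * (tau R / 2 * psi K p.1 (xx θ R C p) ^ 2 - 2 * ‖R‖ ^ 2 / K *
              jj K p.1 (xx θ R C p))) := by ring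
        _ ≤ p.1 ^ (b - 1) * (‖p.2.1‖ ^ 2 * vpi κ (TT p) * (jj K p.1 (xx θ R C p) / K)) *
            Real.exp (-‖p.2.2‖ ^ 2 / 2) +
            p.1 ^ (b - 1) * Om κ (TT p) * Real.exp (-‖p.2.2‖ ^ 2 / 2) *
            (-(p.1 / 4 * lap K p.1 R (xx θ R C p))) := by linarith
        _ = _ := by ring
  have hball' := ball_step hOM hCOSH hκ hC₂ R C θ hball iA iC
  have hlow' := hlow θ
  have hup' := hup θ
  have hs1 := integral_sub (iA.add (iB.const_mul (tau R / 2))) (iC.const_mul (2 * ‖R‖ ^ 2 / K))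
  have hs2 := integral_add iA (iB.const_mul (tau R / 2))
  simp only [Pi.add_apply] at hs1
  rw [integral_const_mul, hs1, hs2, integral_const_mul, integral_const_mul] at hGlow
  have hN : (0:ℝ) < (1 + ‖θ‖ ^ 2) ^ 2 := by positivity
  set IA := ∫ p : ℝ × E m × E k, p.1 ^ (b - 1) * (‖p.2.1‖ ^ 2 * vpi κ (TT p)) *
      jj K p.1 (xx θ R C p) * Real.exp (-‖p.2.2‖ ^ 2 / 2) ∂(mu m k) with hIA
  set IB := ∫ p : ℝ × E m × E k, p.1 ^ (b - 1) * Om κ (TT p) *
      psi K p.1 (xx θ R C p) ^ 2 * Real.exp (-‖p.2.2‖ ^ 2 / 2) ∂(mu m k) with hIB'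
  set IC := ∫ p : ℝ × E m × E k, p.1 ^ (b - 1) * Om κ (TT p) *
      jj K p.1 (xx θ R C p) * Real.exp (-‖p.2.2‖ ^ 2 / 2) ∂(mu m k) with hIC
  have hmain : tau R / (2 * K) * (c / (1 + ‖θ‖ ^ 2) ^ 2) ≤ ∫ p : ℝ × E m × E k, wt b κ p *
      ((((m : ℝ) / 2) * p.1 - b * ‖p.2.1‖ ^ 2) * psi K p.1 (xx θ R C p)) ∂(mu m k) := by
    rw [hIB]
    refine le_trans ?_ hGlow
    have h1 : 2 * ‖R‖ ^ 2 / K * IC ≤ IA := by
      have h2 : 2 * ‖R‖ ^ 2 / K * C₂ = 1 := by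
        rw [hKdef]; field_simp
      calc 2 * ‖R‖ ^ 2 / K * IC ≤ 2 * ‖R‖ ^ 2 / K * (C₂ * IA) :=
            mul_le_mul_of_nonneg_left hball' (by positivity)
        _ = (2 * ‖R‖ ^ 2 / K * C₂) * IA := by ring
        _ = IA := by rw [h2, one_mul]
    have h3 : 1 / K * (tau R / 2 * IB) ≤ 1 / K * (IA + tau R / 2 * IB - 2 * ‖R‖ ^ 2 / K * IC) := by
      apply mul_le_mul_of_nonneg_left _ (by positivity)
      linarith
    refine le_trans ?_ h3
    calc tau R / (2 * K) * (c / (1 + ‖θ‖ ^ 2) ^ 2) ≤ tau R / (2 * K) * IB :=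
          mul_le_mul_of_nonneg_left hlow' (by positivity)
      _ = 1 / K * (tau R / 2 * IB) := by ring
  have hcongr : (fun p : ℝ × E m × E k => wt b κ p *
      ((((m : ℝ) / 2) * p.1 - b * ‖p.2.1‖ ^ 2) * (δ * psi K p.1 (xx θ R C p)) -
        2 * b * (δ * psi K p.1 (xx θ R C p)) ^ 2 * TT p)) =
      (fun p : ℝ × E m × E k => δ * (wt b κ p *
      ((((m : ℝ) / 2) * p.1 - b * ‖p.2.1‖ ^ 2) * psi K p.1 (xx θ R C p))) -
        2 * b * δ ^ 2 * (wt b κ p * TT p * psi K p.1 (xx θ R C p) ^ 2)) := by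
    funext p; ring
  rw [hcongr]
  refine ⟨(iF1.const_mul _).sub (iF2.const_mul _), ?_⟩
  rw [integral_sub (iF1.const_mul _) (iF2.const_mul _), integral_const_mul, integral_const_mul]
  set J1 := ∫ p : ℝ × E m × E k, wt b κ p *
      ((((m : ℝ) / 2) * p.1 - b * ‖p.2.1‖ ^ 2) * psi K p.1 (xx θ R C p)) ∂(mu m k) with hJ1
  set J2 := ∫ p : ℝ × E m × E k, wt b κ p * TT p * psi K p.1 (xx θ R C p) ^ 2 ∂(mu m k) with hJ2
  have h5 : 2 * b * δ ^ 2 * J2 ≤ δ * ((tau R * c / (4 * K)) / (1 + ‖θ‖ ^ 2) ^ 2) := by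
    calc 2 * b * δ ^ 2 * J2 ≤ 2 * b * δ ^ 2 * (C₁ / (1 + ‖θ‖ ^ 2) ^ 2) :=
          mul_le_mul_of_nonneg_left hup' (by positivity)
      _ = δ * ((2 * b * δ * C₁) / (1 + ‖θ‖ ^ 2) ^ 2) := by ring
      _ ≤ _ := by gcongr
  have h6 : δ * (tau R / (2 * K) * (c / (1 + ‖θ‖ ^ 2) ^ 2)) ≤ δ * J1 :=
    mul_le_mul_of_nonneg_left hmain hδ.le
  have h7 : δ * ((tau R * c / (4 * K)) / (1 + ‖θ‖ ^ 2) ^ 2) <
      δ * (tau R / (2 * K) * (c / (1 + ‖θ‖ ^ 2) ^ 2)) := by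
    apply mul_lt_mul_of_pos_left _ hδ
    have h8 : 0 < (tau R * c / (4 * K)) / (1 + ‖θ‖ ^ 2) ^ 2 := by positivity
    have h9 : tau R / (2 * K) * (c / (1 + ‖θ‖ ^ 2) ^ 2) =
        2 * ((tau R * c / (4 * K)) / (1 + ‖θ‖ ^ 2) ^ 2) := by ring
    rw [h9]
    linarith
  linarith

end Pool.Agent.L7h38.PD
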