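/-
Project PD (MP_4845bf_pr): the model problem (orthonormal coordinates, variance one).
-/
import Pool.Agent.L7h38.PD.Core

open MeasureTheory Set Filter Topology
open scoped RealInnerProductSpace ENNReal

namespace Pool.Agent.L7h38.PD

variable {m k ν : ℕ}

/-- Density of `N_d(μ, v I_d)`. -/
noncomputable def gauss {d : ℕ} (μ : E d) (v : ℝ) (x : E d) : ℝ :=
  (2 * Real.pi * v) ^ (-(d : ℝ) / 2) * Real.exp (-‖x - μ‖ ^ 2 / (2 * v))

/-- `I⁻¹ S^b (S + Q)^(-(b+h))`. -/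
noncomputable def td (I b h S Q : ℝ) : ℝ := I⁻¹ * (S ^ b * (S + Q) ^ (-(b + h)))

/-- The best invariant predictive density in coordinates. -/
noncomputable def tU (I b : ℝ) (L : E k →L[ℝ] E m) (B : E m ≃L[ℝ] E m) (y : E k × E ν)
    (z : E m) : ℝ :=
  td I b ((m : ℝ) / 2) (‖y.2‖ ^ 2) (‖B (z - L y.1)‖ ^ 2)

/-- The better predictive density in coordinates. -/
noncomputable def tc (I b K δ : ℝ) (L : E k →L[ℝ] E m) (B : E m ≃L[ℝ] E m) (y : E k × E ν)
    (z : E m) : ℝ :=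
  td I b ((m : ℝ) / 2) ((1 - δ * psi K (‖y.2‖ ^ 2) y.1) * ‖y.2‖ ^ 2) (‖B (z - L y.1)‖ ^ 2)

/-- The integrand of the risk in coordinates, at variance one. -/
noncomputable def GM (α : ℝ) (L : E k →L[ℝ] E m) (θ : E k) (q : E k × E ν → E m → ℝ)
    (y : (E k × E ν) × E m) : ℝ :=
  fdiv α (q y.1 y.2 / gauss (L θ) 1 y.2) * gauss (L θ) 1 y.2 *
    (gauss θ 1 y.1.1 * gauss 0 1 y.1.2)

lemma gauss_pos {d : ℕ} (μ : E d) {v : ℝ} (hv : 0 < v) (x : E d) : 0 < gauss μ v x := by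
  unfold gauss
  have : 0 < 2 * Real.pi * v := by positivity
  positivity

lemma measurable_gauss {d : ℕ} (μ : E d) (v : ℝ) : Measurable (gauss μ v) := by
  unfold gauss; fun_prop

lemma integrable_exp_sq {d : ℕ} (μ : E d) :
    Integrable (fun x : E d => Real.exp (-‖x - μ‖ ^ 2 / 2)) := by
  have h := GaussianFourier.integrable_cexp_neg_mul_sq_norm_add (V := E d) (b := 1/2)
    (by norm_num) 0 0
  have h2 : Integrable (fun x : E d => Real.exp (-‖x‖ ^ 2 / 2)) := by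
    have h3 := h.re
    refine h3.congr (Filter.Eventually.of_forall fun x => ?_)
    simp only [inner_zero_left, Complex.ofReal_zero, mul_zero, add_zero]
    have : (-(1/2:ℂ) * (‖x‖:ℂ) ^ 2) = ((-‖x‖ ^ 2 / 2 : ℝ) : ℂ) := by push_cast; ring
    rw [this, ← Complex.ofReal_exp]
    rfl
  exact h2.comp_sub_right μ

lemma integrable_gauss {d : ℕ} (μ : E d) : Integrable (gauss μ 1) := by
  unfold gauss
  refine ((integrable_exp_sq μ).const_mul ((2 * Real.pi * 1) ^ (-(d : ℝ) / 2))).congr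
    (Filter.Eventually.of_forall fun x => ?_)
  simp

lemma td_pos {I b h S Q : ℝ} (hI : 0 < I) (hS : 0 < S) (hQ : 0 ≤ Q) : 0 < td I b h S Q := by
  unfold td; positivity

lemma td_rpow {I b h S Q s : ℝ} (hI : 0 < I) (hS : 0 < S) (hQ : 0 ≤ Q) :
    td I b h S Q ^ s = I⁻¹ ^ s * (S ^ (b * s) * (S + Q) ^ (-((b + h) * s))) := by
  unfold td
  rw [Real.mul_rpow (by positivity) (by positivity), Real.mul_rpow (by positivity) (by positivity),
    ← Real.rpow_mul hS.le, ← Real.rpow_mul (by positivity)]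
  congr 3; ring

lemma ae_snd_ne (hν : 0 < ν) : ∀ᵐ y : E k × E ν, y.2 ≠ 0 := by
  have : Nonempty (Fin ν) := ⟨⟨0, hν⟩⟩
  have h1 : ∀ᵐ y : E ν, y ≠ 0 := by
    simp [ae_iff]
  exact Measure.quasiMeasurePreserving_snd.ae h1

lemma ae_ne3 (hν : 0 < ν) : ∀ᵐ y : (E k × E ν) × E m, y.1.2 ≠ 0 :=
  Measure.quasiMeasurePreserving_fst.ae (ae_snd_ne hν)

/-- A measurable family of densities times an integrable weight is integrable. -/
lemma int_dens (hν : 0 < ν) {q : E k × E ν → E m → ℝ} {N : E k × E ν → ℝ}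
    (hqm : Measurable (fun p : (E k × E ν) × E m => q p.1 p.2))
    (hq0 : ∀ y z, y.2 ≠ 0 → 0 ≤ q y z) (hqi : ∀ y, y.2 ≠ 0 → Integrable (q y))
    (hq1 : ∀ y, y.2 ≠ 0 → ∫ z, q y z = 1) (hNm : Measurable N) (hN : Integrable N)
    (hN0 : ∀ y, 0 ≤ N y) :
    Integrable (fun p : (E k × E ν) × E m => q p.1 p.2 * N p.1) := by
  rw [Measure.volume_eq_prod, integrable_prod_iff]
  · refine ⟨?_, ?_⟩
    · filter_upwards [ae_snd_ne (k := k) hν] with y hy
      exact (hqi y hy).mul_const _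
    · refine hN.congr ?_
      filter_upwards [ae_snd_ne (k := k) hν] with y hy
      have : ∀ z, ‖q y z * N y‖ = q y z * N y := fun z => by
        rw [Real.norm_eq_abs, abs_of_nonneg (mul_nonneg (hq0 y z hy) (hN0 y))]
      simp only [this]
      rw [integral_mul_const, hq1 y hy, one_mul]
  · exact (hqm.mul (hNm.comp measurable_fst)).aestronglyMeasurable

/-! ### Properties of the two rules -/

section rules

variable {I b K δ : ℝ} (L : E k →L[ℝ] E m) (B : E m ≃L[ℝ] E m)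

lemma measurable_psi' {α : Type*} [MeasurableSpace α] {K : ℝ} {f : α → ℝ} {g : α → E k}
    (hf : Measurable f) (hg : Measurable g) : Measurable (fun a => psi K (f a) (g a)) :=
  measurable_psi hf hg

lemma measurable_Q : Measurable (fun p : (E k × E ν) × E m => ‖B (p.2 - L p.1.1)‖ ^ 2) := by
  have h1 : Measurable (fun p : (E k × E ν) × E m => p.2 - L p.1.1) :=
    measurable_snd.sub (L.continuous.measurable.comp (measurable_fst.comp measurable_fst))
  have h2 : Measurable (fun p : (E k × E ν) × E m => B (p.2 - L p.1.1)) :=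
    B.continuous.measurable.comp h1
  exact h2.norm.pow_const 2

lemma measurable_tU : Measurable (fun p : (E k × E ν) × E m => tU I b L B p.1 p.2) := by
  have h := measurable_Q (ν := ν) L B
  unfold tU td
  fun_prop

lemma measurable_tc : Measurable (fun p : (E k × E ν) × E m => tc I b K δ L B p.1 p.2) := by
  have h := measurable_Q (ν := ν) L B
  have h2 : Measurable (fun p : (E k × E ν) × E m => psi K (‖p.1.2‖ ^ 2) p.1.1) :=
    measurable_psi (by fun_prop) (by fun_prop)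
  unfold tc td
  fun_prop

lemma c_bounds (hK : 0 < K) (hδ : 0 < δ) (hδ2 : δ ≤ 1 / 2) {S : ℝ} (hS : 0 < S) (x : E k) :
    0 < δ * psi K S x ∧ δ * psi K S x ≤ 1 / 2 ∧ 1 / 2 ≤ 1 - δ * psi K S x ∧
      1 - δ * psi K S x ≤ 1 := by
  have h1 := psi_pos hK hS x
  have h2 := psi_le_one hK hS x
  have h3 : 0 < δ * psi K S x := by positivity
  have h4 : δ * psi K S x ≤ 1 / 2 := by nlinarith
  refine ⟨h3, h4, by linarith, by linarith⟩

lemma S_pos {y : E k × E ν} (hy : y.2 ≠ 0) : 0 < ‖y.2‖ ^ 2 := by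
  have := norm_pos_iff.mpr hy
  positivity

lemma tU_pos (hI : 0 < I) {y : E k × E ν} (hy : y.2 ≠ 0) (z : E m) : 0 < tU I b L B y z :=
  td_pos hI (S_pos hy) (by positivity)

lemma tc_pos (hI : 0 < I) (hK : 0 < K) (hδ : 0 < δ) (hδ2 : δ ≤ 1 / 2) {y : E k × E ν}
    (hy : y.2 ≠ 0) (z : E m) : 0 < tc I b K δ L B y z := by
  have h := c_bounds hK hδ hδ2 (S_pos hy) y.1
  exact td_pos hI (by have := S_pos hy; nlinarith [h.2.2.1]) (by positivity)

/-- Normalisation of `td`. -/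
lemma td_norm (hI : 0 < I) (hN : ∀ S : ℝ, 0 < S → ∀ c : E m,
    Integrable (fun z : E m => (S + ‖B (z - c)‖ ^ 2) ^ (-(b + (m : ℝ) / 2))) ∧
    ∫ z : E m, (S + ‖B (z - c)‖ ^ 2) ^ (-(b + (m : ℝ) / 2)) =
      I * S ^ ((m : ℝ) / 2 - (b + (m : ℝ) / 2))) {S : ℝ} (hS : 0 < S) (c : E m) :
    Integrable (fun z : E m => td I b ((m : ℝ) / 2) S (‖B (z - c)‖ ^ 2)) ∧
    ∫ z : E m, td I b ((m : ℝ) / 2) S (‖B (z - c)‖ ^ 2) = 1 := by
  obtain ⟨h1, h2⟩ := hN S hS c
  unfold td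
  refine ⟨(h1.const_mul _).const_mul _, ?_⟩
  rw [integral_const_mul, integral_const_mul, h2]
  rw [show (m : ℝ) / 2 - (b + (m : ℝ) / 2) = -b by ring, Real.rpow_neg hS.le]
  field_simp

end rules

end Pool.Agent.L7h38.PD
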