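/-
Project PD (MP_4845bf_pr): the model problem, integrability and comparison.
-/
import Pool.Agent.L7h38.PD.Model
import Pool.Agent.L7h38.PD.CoreAsm

open MeasureTheory Set Filter Topology
open scoped RealInnerProductSpace ENNReal

namespace Pool.Agent.L7h38.PD

variable {m k ν : ℕ}

/-- Real version of the change of variables. -/
lemma map_real (hMAP : S_MAP) {s : ℝ} (hν : 0 < ν) (hs0 : 0 ≤ s) (hs1 : s < 1)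
    {L : E k →L[ℝ] E m} {B : E m ≃L[ℝ] E m} {C : E k ≃L[ℝ] E k} {R : E m →L[ℝ] E k}
    (hsq : Square s L B C R) :
    ∃ c : ℝ, 0 < c ∧ ∀ (θ : E k) (Φ : ℝ → E k → ℝ → ℝ),
      Measurable (fun p : ℝ × E k × ℝ => Φ p.1 p.2.1 p.2.2) →
      Integrable (fun p : ℝ × E m × E k =>
        p.1 ^ ((ν : ℝ) / 2 - 1) * Real.exp (-(TT p) / 2 - ‖p.2.2‖ ^ 2 / 2) *
          Φ p.1 (xx θ R C p) (‖p.2.1‖ ^ 2)) (mu m k) →
      Integrable (fun y : (E k × E ν) × E m =>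
        Real.exp (-(‖y.1.1 - θ‖ ^ 2 + ‖y.1.2‖ ^ 2) / 2 - (1 - s) * ‖y.2 - L θ‖ ^ 2 / 2) *
          Φ (‖y.1.2‖ ^ 2) y.1.1 (‖B (y.2 - L y.1.1)‖ ^ 2)) ∧
      ∫ y : (E k × E ν) × E m,
        Real.exp (-(‖y.1.1 - θ‖ ^ 2 + ‖y.1.2‖ ^ 2) / 2 - (1 - s) * ‖y.2 - L θ‖ ^ 2 / 2) *
          Φ (‖y.1.2‖ ^ 2) y.1.1 (‖B (y.2 - L y.1.1)‖ ^ 2) =
      c * ∫ p : ℝ × E m × E k,
        p.1 ^ ((ν : ℝ) / 2 - 1) * Real.exp (-(TT p) / 2 - ‖p.2.2‖ ^ 2 / 2) *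
          Φ p.1 (xx θ R C p) (‖p.2.1‖ ^ 2) ∂(mu m k) := by
  obtain ⟨c, hc0, hct, hc⟩ := hMAP k m ν s hν hs0 hs1 L B C R hsq
  refine ⟨c.toReal, ENNReal.toReal_pos hc0 hct, fun θ Φ hΦ hint => ?_⟩
  have hmx := measurable_xx θ R C
  have hmT := measurable_TT (m := m) (k := k)
  have hmQ := measurable_Q (ν := ν) L B
  have gen : ∀ Ψ : ℝ → E k → ℝ → ℝ, Measurable (fun p : ℝ × E k × ℝ => Ψ p.1 p.2.1 p.2.2) →
      ∫⁻ y : (E k × E ν) × E m, ENNReal.ofReal (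
        Real.exp (-(‖y.1.1 - θ‖ ^ 2 + ‖y.1.2‖ ^ 2) / 2 - (1 - s) * ‖y.2 - L θ‖ ^ 2 / 2) *
          Ψ (‖y.1.2‖ ^ 2) y.1.1 (‖B (y.2 - L y.1.1)‖ ^ 2)) =
      c * ∫⁻ p : ℝ × E m × E k, ENNReal.ofReal (
        p.1 ^ ((ν : ℝ) / 2 - 1) * Real.exp (-(TT p) / 2 - ‖p.2.2‖ ^ 2 / 2) *
          Ψ p.1 (xx θ R C p) (‖p.2.1‖ ^ 2)) ∂(mu m k) := by
    intro Ψ hΨ
    have h := hc θ (fun a b d => ENNReal.ofReal (Ψ a b d)) hΨ.ennreal_ofReal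
    have e1 : ∀ y : (E k × E ν) × E m, ENNReal.ofReal (
        Real.exp (-(‖y.1.1 - θ‖ ^ 2 + ‖y.1.2‖ ^ 2) / 2 - (1 - s) * ‖y.2 - L θ‖ ^ 2 / 2) *
          Ψ (‖y.1.2‖ ^ 2) y.1.1 (‖B (y.2 - L y.1.1)‖ ^ 2)) =
        ENNReal.ofReal (Real.exp (-(‖y.1.1 - θ‖ ^ 2 + ‖y.1.2‖ ^ 2) / 2 -
        (1 - s) * ‖y.2 - L θ‖ ^ 2 / 2)) * ENNReal.ofReal
          (Ψ (‖y.1.2‖ ^ 2) y.1.1 (‖B (y.2 - L y.1.1)‖ ^ 2)) := fun y =>
      ENNReal.ofReal_mul (Real.exp_pos _).le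
    rw [lintegral_congr e1, h]
    congr 1
    refine lintegral_congr_ae ?_
    filter_upwards [ae_mu m k] with p hp
    rw [← ENNReal.ofReal_mul (by positivity)]
  have hw2 : Measurable (fun p : ℝ × E m × E k =>
        p.1 ^ ((ν : ℝ) / 2 - 1) * Real.exp (-(TT p) / 2 - ‖p.2.2‖ ^ 2 / 2) *
          Φ p.1 (xx θ R C p) (‖p.2.1‖ ^ 2)) := by
    have h1 : Measurable (fun p : ℝ × E m × E k => Φ p.1 (xx θ R C p) (‖p.2.1‖ ^ 2)) :=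
      hΦ.comp (measurable_fst.prodMk (hmx.prodMk (by fun_prop)))
    fun_prop
  have hw1 : Measurable (fun y : (E k × E ν) × E m =>
        Real.exp (-(‖y.1.1 - θ‖ ^ 2 + ‖y.1.2‖ ^ 2) / 2 - (1 - s) * ‖y.2 - L θ‖ ^ 2 / 2) *
          Φ (‖y.1.2‖ ^ 2) y.1.1 (‖B (y.2 - L y.1.1)‖ ^ 2)) := by
    have h1 : Measurable (fun y : (E k × E ν) × E m =>
        Φ (‖y.1.2‖ ^ 2) y.1.1 (‖B (y.2 - L y.1.1)‖ ^ 2)) :=
      hΦ.comp (Measurable.prodMk (by fun_prop) (Measurable.prodMk (by fun_prop) hmQ))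
    fun_prop
  have i1 : Integrable (fun y : (E k × E ν) × E m =>
        Real.exp (-(‖y.1.1 - θ‖ ^ 2 + ‖y.1.2‖ ^ 2) / 2 - (1 - s) * ‖y.2 - L θ‖ ^ 2 / 2) *
          Φ (‖y.1.2‖ ^ 2) y.1.1 (‖B (y.2 - L y.1.1)‖ ^ 2)) := by
    refine ⟨hw1.aestronglyMeasurable, ?_⟩
    have h1 := gen (fun a b d => |Φ a b d|) hΦ.abs
    have h2 := hint.2
    unfold HasFiniteIntegral at h2 ⊢
    have e1 : ∀ y : (E k × E ν) × E m, ‖Real.exp (-(‖y.1.1 - θ‖ ^ 2 + ‖y.1.2‖ ^ 2) / 2 -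
        (1 - s) * ‖y.2 - L θ‖ ^ 2 / 2) *
          Φ (‖y.1.2‖ ^ 2) y.1.1 (‖B (y.2 - L y.1.1)‖ ^ 2)‖ₑ = ENNReal.ofReal (
        Real.exp (-(‖y.1.1 - θ‖ ^ 2 + ‖y.1.2‖ ^ 2) / 2 - (1 - s) * ‖y.2 - L θ‖ ^ 2 / 2) *
          |Φ (‖y.1.2‖ ^ 2) y.1.1 (‖B (y.2 - L y.1.1)‖ ^ 2)|) := by
      intro y
      rw [← ofReal_norm, Real.norm_eq_abs, abs_mul, abs_of_pos (Real.exp_pos _)]
    rw [lintegral_congr e1, h1]
    refine ENNReal.mul_lt_top (lt_top_iff_ne_top.mpr hct) ?_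
    convert h2 using 1
    refine lintegral_congr_ae ?_
    filter_upwards [ae_mu m k] with p hp
    rw [← ofReal_norm, Real.norm_eq_abs, abs_mul, abs_of_nonneg (by positivity :
      0 ≤ p.1 ^ ((ν : ℝ) / 2 - 1) * Real.exp (-(TT p) / 2 - ‖p.2.2‖ ^ 2 / 2))]
  refine ⟨i1, ?_⟩
  rw [integral_eq_lintegral_pos_part_sub_lintegral_neg_part i1,
    integral_eq_lintegral_pos_part_sub_lintegral_neg_part hint, gen Φ hΦ]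
  have h3 := gen (fun a b d => -Φ a b d) hΦ.neg
  simp only [mul_neg] at h3
  rw [h3, ENNReal.toReal_mul, ENNReal.toReal_mul]
  ring

/-- The comparison function on the `mu` side. -/
noncomputable def Phi (s b h K δ : ℝ) (S : ℝ) (x : E k) (Q : ℝ) : ℝ :=
  S ^ (b * s) * (S + Q) ^ (-((b + h) * s)) *
    ((δ * psi K S x) * (h * S - b * Q) / (S + Q) - 2 * b * (δ * psi K S x) ^ 2)

lemma measurable_Phi (s b h K δ : ℝ) :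
    Measurable (fun p : ℝ × E k × ℝ => Phi s b h K δ p.1 p.2.1 p.2.2) := by
  have h2 : Measurable (fun p : ℝ × E k × ℝ => psi K p.1 p.2.1) :=
    measurable_psi (by fun_prop) (by fun_prop)
  unfold Phi
  fun_prop

lemma Phi_mu {s b K δ : ℝ} (hb : b * (1 - s) = (ν : ℝ) / 2) (θ : E k) (R : E m →L[ℝ] E k)
    (C : E k ≃L[ℝ] E k) {p : ℝ × E m × E k} (hp : 0 < p.1) :
    p.1 ^ ((ν : ℝ) / 2 - 1) * Real.exp (-(TT p) / 2 - ‖p.2.2‖ ^ 2 / 2) *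
        Phi s b ((m : ℝ) / 2) K δ p.1 (xx θ R C p) (‖p.2.1‖ ^ 2) =
      wt b ((b + (m : ℝ) / 2) * s) p *
      ((((m : ℝ) / 2) * p.1 - b * ‖p.2.1‖ ^ 2) * (δ * psi K p.1 (xx θ R C p)) -
        2 * b * (δ * psi K p.1 (xx θ R C p)) ^ 2 * TT p) := by
  have hT := TT_pos hp
  unfold Phi wt vpi
  rw [show p.1 + ‖p.2.1‖ ^ 2 = TT p from rfl]
  have e1 : p.1 ^ (b - 1) = p.1 ^ ((ν : ℝ) / 2 - 1) * p.1 ^ (b * s) := by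
    rw [← Real.rpow_add hp]; congr 1; rw [← hb]; ring
  have e2 : TT p ^ (-((b + (m : ℝ) / 2) * s) - 1) =
      TT p ^ (-((b + (m : ℝ) / 2) * s)) / TT p := by
    rw [Real.rpow_sub hT, Real.rpow_one]
  have e3 : Real.exp (-(TT p) / 2 - ‖p.2.2‖ ^ 2 / 2) =
      Real.exp (-(TT p) / 2) * Real.exp (-‖p.2.2‖ ^ 2 / 2) := by
    rw [← Real.exp_add]; congr 1; ring
  rw [e1, e2, e3]
  field_simp

end Pool.Agent.L7h38.PD
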