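/-
Project PD (MP_4845bf_pr): the model theorem.
-/
import Pool.Agent.L7h38.PD.Model2

open MeasureTheory Set Filter Topology
open scoped RealInnerProductSpace ENNReal

namespace Pool.Agent.L7h38.PD

variable {m k ν : ℕ}

/-! ### Integrability of the risk integrands, `|α| < 1` -/

lemma rpow_le_one_add {x s : ℝ} (hx : 0 ≤ x) (hs : 0 ≤ s) (hs1 : s ≤ 1) : x ^ s ≤ 1 + x := by
  rcases le_total x 1 with h | h
  · have := Real.rpow_le_one hx h hs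
    linarith
  · have := Real.rpow_le_rpow_of_exponent_le h hs1
    rw [Real.rpow_one] at this
    linarith

lemma fdiv_bound {α q p : ℝ} (h1 : -1 < α) (h2 : α < 1) (hq : 0 < q) (hp : 0 < p) :
    |fdiv α (q / p) * p| ≤ 4 / (1 - α ^ 2) * (2 * p + q) := by
  unfold fdiv
  rw [if_neg h1.ne']
  have h3 : 0 < 1 - α ^ 2 := by nlinarith
  have hx : 0 < q / p := by positivity
  have h4 : (q / p) ^ ((1 + α) / 2) ≤ 1 + q / p :=
    rpow_le_one_add hx.le (by linarith) (by linarith)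
  have h5 : 0 ≤ (q / p) ^ ((1 + α) / 2) := by positivity
  have h6 : |1 - (q / p) ^ ((1 + α) / 2)| ≤ 2 + q / p := by
    rw [abs_le]; constructor <;> linarith
  rw [abs_mul, abs_mul, abs_of_pos (by positivity : 0 < 4 / (1 - α ^ 2)), abs_of_pos hp, mul_assoc]
  apply mul_le_mul_of_nonneg_left _ (by positivity)
  calc |1 - (q / p) ^ ((1 + α) / 2)| * p ≤ (2 + q / p) * p := by gcongr
    _ = 2 * p + q := by field_simp

lemma measurable_fdiv (α : ℝ) : Measurable (fdiv α) := by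
  unfold fdiv
  by_cases h : α = -1
  · simp only [h, if_true]; exact Real.measurable_log.neg
  · simp only [h, if_false]; fun_prop

lemma measurable_GM (α : ℝ) (L : E k →L[ℝ] E m) (θ : E k) {q : E k × E ν → E m → ℝ}
    (hq : Measurable (fun p : (E k × E ν) × E m => q p.1 p.2)) :
    Measurable (GM α L θ q) := by
  unfold GM
  have h1 : Measurable (fun y : (E k × E ν) × E m => gauss (L θ) 1 y.2) :=
    (measurable_gauss (L θ) 1).comp measurable_snd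
  have h2 : Measurable (fun y : (E k × E ν) × E m => gauss θ 1 y.1.1) :=
    (measurable_gauss θ 1).comp (measurable_fst.comp measurable_fst)
  have h3 : Measurable (fun y : (E k × E ν) × E m => gauss (0 : E ν) 1 y.1.2) :=
    (measurable_gauss (0 : E ν) 1).comp (measurable_snd.comp measurable_fst)
  have h4 := (measurable_fdiv α).comp (hq.div h1)
  exact (h4.mul h1).mul (h2.mul h3)

lemma integrable_N (θ : E k) :
    Integrable (fun y : E k × E ν => gauss θ 1 y.1 * gauss (0 : E ν) 1 y.2) :=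
  (integrable_gauss θ).mul_prod (integrable_gauss 0)

lemma integrable_pN (L : E k →L[ℝ] E m) (θ : E k) :
    Integrable (fun y : (E k × E ν) × E m => gauss (L θ) 1 y.2 *
      (gauss θ 1 y.1.1 * gauss (0 : E ν) 1 y.1.2)) := by
  have h := (integrable_N (ν := ν) θ).mul_prod (integrable_gauss (L θ))
  exact h.congr (Filter.Eventually.of_forall fun y => mul_comm _ _)

lemma measurable_N (θ : E k) :
    Measurable (fun y : E k × E ν => gauss θ 1 y.1 * gauss (0 : E ν) 1 y.2) :=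
  ((measurable_gauss θ 1).comp measurable_fst).mul ((measurable_gauss 0 1).comp measurable_snd)

lemma N_nonneg (θ : E k) (y : E k × E ν) : 0 ≤ gauss θ 1 y.1 * gauss (0 : E ν) 1 y.2 :=
  mul_nonneg (gauss_pos _ one_pos _).le (gauss_pos _ one_pos _).le

/-- Integrability of the risk integrand for `|α| < 1`: any measurable family of positive
densities. -/
lemma int_GM_alpha (hν : 0 < ν) {α : ℝ} (h1 : -1 < α) (h2 : α < 1) (L : E k →L[ℝ] E m) (θ : E k)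
    {q : E k × E ν → E m → ℝ} (hqm : Measurable (fun p : (E k × E ν) × E m => q p.1 p.2))
    (hq0 : ∀ y z, y.2 ≠ 0 → 0 < q y z) (hqi : ∀ y, y.2 ≠ 0 → Integrable (q y))
    (hq1 : ∀ y, y.2 ≠ 0 → ∫ z, q y z = 1) : Integrable (GM α L θ q) := by
  have i1 := int_dens hν hqm (fun y z hy => (hq0 y z hy).le) hqi hq1 (measurable_N θ)
    (integrable_N θ) (N_nonneg θ)
  have i2 := integrable_pN (ν := ν) L θ
  have i3 := ((i2.const_mul 2).add i1).const_mul (4 / (1 - α ^ 2))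
  refine Integrable.mono' i3 (measurable_GM α L θ hqm).aestronglyMeasurable ?_
  filter_upwards [ae_ne3 (k := k) (m := m) hν] with y hy
  have hN := N_nonneg θ y.1
  have hb := fdiv_bound h1 h2 (hq0 y.1 y.2 hy) (gauss_pos (L θ) one_pos y.2)
  simp only [Pi.add_apply]
  unfold GM
  rw [Real.norm_eq_abs, abs_mul, abs_of_nonneg hN]
  calc |fdiv α (q y.1 y.2 / gauss (L θ) 1 y.2) * gauss (L θ) 1 y.2| *
        (gauss θ 1 y.1.1 * gauss 0 1 y.1.2)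
      ≤ (4 / (1 - α ^ 2) * (2 * gauss (L θ) 1 y.2 + q y.1 y.2)) *
        (gauss θ 1 y.1.1 * gauss 0 1 y.1.2) := mul_le_mul_of_nonneg_right hb hN
    _ = _ := by ring

/-! ### Integrability of the risk integrands, `α = -1` -/

lemma log_gauss {d : ℕ} (μ x : E d) :
    Real.log (gauss μ 1 x) = -(d : ℝ) / 2 * Real.log (2 * Real.pi) - ‖x - μ‖ ^ 2 / 2 := by
  unfold gauss
  rw [Real.log_mul (by positivity) (Real.exp_pos _).ne', Real.log_exp, mul_one,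
    Real.log_rpow (by positivity)]
  ring

lemma abs_log_td {I b h S Q c : ℝ} (hI : 0 < I) (hb : 0 < b) (hh : 0 ≤ h) (hS : 0 < S)
    (hQ : 0 ≤ Q) (hc : 1 / 2 ≤ c) (hc1 : c ≤ 1) :
    |Real.log (td I b h (c * S) Q)| ≤
      |Real.log I| + (2 * b + h) * (|Real.log S| + Real.log 2 + S + Q) := by
  have hc0 : 0 < c := by linarith
  have hcS : 0 < c * S := by positivity
  have hl2 : 0 < Real.log 2 := Real.log_pos (by norm_num)
  have hlc : -Real.log 2 ≤ Real.log c := by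
    rw [← Real.log_inv]; exact Real.log_le_log (by norm_num) (by linarith)
  have hlc1 : Real.log c ≤ 0 := Real.log_nonpos hc0.le hc1
  have e1 : Real.log (c * S) = Real.log c + Real.log S := Real.log_mul hc0.ne' hS.ne'
  have hA := abs_le.mp (le_refl |Real.log S|)
  have a1 : |Real.log (c * S)| ≤ |Real.log S| + Real.log 2 + S + Q := by
    rw [e1, abs_le]; constructor <;> linarith [hA.1, hA.2]
  have u1 : Real.log (c * S + Q) ≤ S + Q := by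
    have h1 := Real.log_le_sub_one_of_pos (by positivity : 0 < c * S + Q)
    nlinarith
  have l1 : Real.log (c * S) ≤ Real.log (c * S + Q) :=
    Real.log_le_log hcS (by linarith)
  have a2 : |Real.log (c * S + Q)| ≤ |Real.log S| + Real.log 2 + S + Q := by
    have := (abs_le.mp a1).1
    have h0 : 0 ≤ |Real.log S| := abs_nonneg _
    rw [abs_le]; constructor <;> linarith
  unfold td
  rw [Real.log_mul (by positivity) (by positivity), Real.log_mul (by positivity) (by positivity),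
    Real.log_rpow hcS, Real.log_rpow (by positivity), Real.log_inv]
  have t1 : |b * Real.log (c * S)| ≤ b * (|Real.log S| + Real.log 2 + S + Q) := by
    rw [abs_mul, abs_of_pos hb]; gcongr
  have t2 : |-(b + h) * Real.log (c * S + Q)| ≤
      (b + h) * (|Real.log S| + Real.log 2 + S + Q) := by
    rw [abs_mul, abs_neg, abs_of_nonneg (by positivity)]; gcongr
  calc |-Real.log I + (b * Real.log (c * S) + -(b + h) * Real.log (c * S + Q))|
      ≤ |-Real.log I| + (|b * Real.log (c * S)| + |-(b + h) * Real.log (c * S + Q)|) := by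
        refine (abs_add_le _ _).trans ?_
        gcongr
        exact abs_add_le _ _
    _ ≤ |Real.log I| + (b * (|Real.log S| + Real.log 2 + S + Q) +
        (b + h) * (|Real.log S| + Real.log 2 + S + Q)) := by
        rw [abs_neg]; gcongr
    _ = _ := by ring

lemma Q_le (L : E k →L[ℝ] E m) (B : E m ≃L[ℝ] E m) (x : E k) (z : E m) :
    ‖B (z - L x)‖ ^ 2 ≤
      2 * ‖(B : E m →L[ℝ] E m)‖ ^ 2 * (1 + ‖L‖ ^ 2) * (‖z‖ ^ 2 + ‖x‖ ^ 2) := by
  have h1 : ‖B (z - L x)‖ ≤ ‖(B : E m →L[ℝ] E m)‖ * ‖z - L x‖ :=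
    (B : E m →L[ℝ] E m).le_opNorm _
  have h2 : ‖z - L x‖ ≤ ‖z‖ + ‖L‖ * ‖x‖ := (norm_sub_le _ _).trans (by gcongr; exact L.le_opNorm x)
  have h3 : ‖z - L x‖ ^ 2 ≤ 2 * ((1 + ‖L‖ ^ 2) * (‖z‖ ^ 2 + ‖x‖ ^ 2)) := by
    have h4 : ‖z - L x‖ ^ 2 ≤ (‖z‖ + ‖L‖ * ‖x‖) ^ 2 :=
      pow_le_pow_left₀ (norm_nonneg _) h2 2
    nlinarith [sq_nonneg (‖z‖ - ‖L‖ * ‖x‖), sq_nonneg (‖L‖ * ‖z‖), sq_nonneg (‖x‖)]
  calc ‖B (z - L x)‖ ^ 2 ≤ (‖(B : E m →L[ℝ] E m)‖ * ‖z - L x‖) ^ 2 :=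
        pow_le_pow_left₀ (norm_nonneg _) h1 2
    _ = ‖(B : E m →L[ℝ] E m)‖ ^ 2 * ‖z - L x‖ ^ 2 := by ring
    _ ≤ ‖(B : E m →L[ℝ] E m)‖ ^ 2 * (2 * ((1 + ‖L‖ ^ 2) * (‖z‖ ^ 2 + ‖x‖ ^ 2))) := by gcongr
    _ = _ := by ring

/-- Integrability for the Kullback-Leibler loss. -/
lemma int_GM_KL (hKLI : S_KLI) (hν : 0 < ν) (L : E k →L[ℝ] E m) (B : E m ≃L[ℝ] E m) (θ : E k)
    {I b : ℝ} (hI : 0 < I) (hb : 0 < b) {c : E k × E ν → ℝ} (hcm : Measurable c)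
    (hc : ∀ y, y.2 ≠ 0 → 1 / 2 ≤ c y ∧ c y ≤ 1) :
    Integrable (GM (-1) L θ (fun y z => td I b ((m : ℝ) / 2) (c y * ‖y.2‖ ^ 2)
      (‖B (z - L y.1)‖ ^ 2))) := by
  have hQm := measurable_Q (ν := ν) L B
  have hqm : Measurable (fun p : (E k × E ν) × E m => td I b ((m : ℝ) / 2)
      (c p.1 * ‖p.1.2‖ ^ 2) (‖B (p.2 - L p.1.1)‖ ^ 2)) := by
    unfold td; fun_prop
  obtain ⟨A, hA⟩ : ∃ A : ℝ, A = 2 * ‖(B : E m →L[ℝ] E m)‖ ^ 2 * (1 + ‖L‖ ^ 2) := ⟨_, rfl⟩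
  have hA0 : 0 ≤ A := by rw [hA]; positivity
  have hh : (0:ℝ) ≤ (m : ℝ) / 2 := by positivity
  obtain ⟨D, hD⟩ : ∃ D : ℝ, D = |Real.log I| + (2 * b + (m : ℝ) / 2) * (1 + Real.log 2 + A) +
    (m : ℝ) / 2 * |Real.log (2 * Real.pi)| + 1 + ‖L θ‖ ^ 2 := ⟨_, rfl⟩
  have hl2 : 0 < Real.log 2 := Real.log_pos (by norm_num)
  have i1 := (hKLI k m ν hν θ (L θ)).const_mul
    (D * ((2 * Real.pi) ^ (-(m : ℝ) / 2) * ((2 * Real.pi) ^ (-(k : ℝ) / 2) *
      (2 * Real.pi) ^ (-(ν : ℝ) / 2))))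
  refine Integrable.mono' i1 (measurable_GM (-1) L θ hqm).aestronglyMeasurable ?_
  filter_upwards [ae_ne3 (k := k) (m := m) hν] with y hy
  have hS := S_pos hy
  obtain ⟨hc1, hc2⟩ := hc y.1 hy
  have hQ0 : 0 ≤ ‖B (y.2 - L y.1.1)‖ ^ 2 := by positivity
  have hq : 0 < td I b ((m : ℝ) / 2) (c y.1 * ‖y.1.2‖ ^ 2) (‖B (y.2 - L y.1.1)‖ ^ 2) :=
    td_pos hI (by nlinarith) hQ0
  have hp := gauss_pos (L θ) one_pos y.2
  have hN := N_nonneg θ y.1
  have hb1 := abs_log_td hI hb hh hS hQ0 hc1 hc2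
  have hQ1 := Q_le L B y.1.1 y.2
  rw [← hA] at hQ1
  have hlp : |Real.log (gauss (L θ) 1 y.2)| ≤ (m : ℝ) / 2 * |Real.log (2 * Real.pi)| +
      ‖y.2‖ ^ 2 + ‖L θ‖ ^ 2 := by
    rw [log_gauss]
    have h1 : ‖y.2 - L θ‖ ^ 2 ≤ 2 * ‖y.2‖ ^ 2 + 2 * ‖L θ‖ ^ 2 := by
      have h2 : ‖y.2 - L θ‖ ^ 2 ≤ (‖y.2‖ + ‖L θ‖) ^ 2 :=
        pow_le_pow_left₀ (norm_nonneg _) (norm_sub_le _ _) 2
      nlinarith [sq_nonneg (‖y.2‖ - ‖L θ‖)]
    have h3 : |-(m : ℝ) / 2 * Real.log (2 * Real.pi)| = (m : ℝ) / 2 * |Real.log (2 * Real.pi)| := by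
      rw [abs_mul, neg_div, abs_neg, abs_of_nonneg hh]
    have h4 : |‖y.2 - L θ‖ ^ 2 / 2| ≤ ‖y.2‖ ^ 2 + ‖L θ‖ ^ 2 := by
      rw [abs_of_nonneg (by positivity)]; linarith
    calc |-(m : ℝ) / 2 * Real.log (2 * Real.pi) - ‖y.2 - L θ‖ ^ 2 / 2|
        ≤ |-(m : ℝ) / 2 * Real.log (2 * Real.pi)| + |‖y.2 - L θ‖ ^ 2 / 2| := abs_sub _ _
      _ ≤ _ := by rw [h3]; linarith
  set LS := |Real.log (‖y.1.2‖ ^ 2)| with hLS
  have hLS0 : 0 ≤ LS := abs_nonneg _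
  have hmain : |Real.log (td I b ((m : ℝ) / 2) (c y.1 * ‖y.1.2‖ ^ 2)
      (‖B (y.2 - L y.1.1)‖ ^ 2)) - Real.log (gauss (L θ) 1 y.2)| ≤
      D * (1 + LS + ‖y.1.1‖ ^ 2 + ‖y.1.2‖ ^ 2 + ‖y.2‖ ^ 2) := by
    refine (abs_sub _ _).trans ?_
    have hx0 : 0 ≤ ‖y.1.1‖ ^ 2 := by positivity
    have hs0 : 0 ≤ ‖y.1.2‖ ^ 2 := by positivity
    have hz0 : 0 ≤ ‖y.2‖ ^ 2 := by positivity
    have hl0 : 0 ≤ ‖L θ‖ ^ 2 := by positivity
    have hg0 : 0 ≤ (m : ℝ) / 2 * |Real.log (2 * Real.pi)| := by positivity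
    have hI0 : 0 ≤ |Real.log I| := abs_nonneg _
    have hbm : 0 ≤ 2 * b + (m : ℝ) / 2 := by positivity
    set X := 1 + LS + ‖y.1.1‖ ^ 2 + ‖y.1.2‖ ^ 2 + ‖y.2‖ ^ 2 with hX
    have hX1 : 1 ≤ X := by rw [hX]; linarith
    have g1 : LS + Real.log 2 + ‖y.1.2‖ ^ 2 + ‖B (y.2 - L y.1.1)‖ ^ 2 ≤
        (1 + Real.log 2 + A) * X := by
      have : ‖B (y.2 - L y.1.1)‖ ^ 2 ≤ A * X := hQ1.trans
        (mul_le_mul_of_nonneg_left (by rw [hX]; linarith) hA0)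
      have : Real.log 2 ≤ Real.log 2 * X := by nlinarith
      have : LS + ‖y.1.2‖ ^ 2 ≤ X := by rw [hX]; linarith
      nlinarith
    have g2 := mul_le_mul_of_nonneg_left g1 hbm
    have g3 : |Real.log I| ≤ |Real.log I| * X := by nlinarith
    have g4 : (m : ℝ) / 2 * |Real.log (2 * Real.pi)| ≤
      (m : ℝ) / 2 * |Real.log (2 * Real.pi)| * X := by nlinarith
    have g5 : ‖L θ‖ ^ 2 ≤ ‖L θ‖ ^ 2 * X := by nlinarith
    have g6 : ‖y.2‖ ^ 2 ≤ 1 * X := by rw [hX]; linarith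
    have g7 : D * X = |Real.log I| * X + (2 * b + (m : ℝ) / 2) * ((1 + Real.log 2 + A) * X) +
      (m : ℝ) / 2 * |Real.log (2 * Real.pi)| * X + 1 * X + ‖L θ‖ ^ 2 * X := by rw [hD]; ring
    rw [g7]
    linarith
  unfold GM fdiv
  simp only [if_true]
  rw [Real.norm_eq_abs, abs_mul, abs_mul, abs_of_nonneg hN, abs_of_pos hp, abs_neg,
    Real.log_div hq.ne' hp.ne']
  refine (mul_le_mul_of_nonneg_right (mul_le_mul_of_nonneg_right hmain hp.le) hN).trans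
    (le_of_eq ?_)
  unfold gauss
  rw [show -(‖y.1.1 - θ‖ ^ 2 + ‖y.1.2‖ ^ 2 + ‖y.2 - L θ‖ ^ 2) / 2 =
    -‖y.2 - L θ‖ ^ 2 / (2 * 1) + (-‖y.1.1 - θ‖ ^ 2 / (2 * 1) + -‖y.1.2 - 0‖ ^ 2 / (2 * 1)) by
      rw [sub_zero]; ring, Real.exp_add, Real.exp_add]
  rw [hLS]
  simp only [mul_one]
  ring

end Pool.Agent.L7h38.PD
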