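/-
Project PD (MP_4845bf_pr): the model theorem (comparison of the two risks).
-/
import Pool.Agent.L7h38.PD.Model3

open MeasureTheory Set Filter Topology
open scoped RealInnerProductSpace ENNReal

namespace Pool.Agent.L7h38.PD

variable {m k ν : ℕ}

lemma gauss_rpow {d : ℕ} (μ x : E d) (t : ℝ) :
    gauss μ 1 x ^ t = (2 * Real.pi) ^ (-(d : ℝ) / 2 * t) * Real.exp (-t * ‖x - μ‖ ^ 2 / 2) := by
  unfold gauss
  rw [Real.mul_rpow (by positivity) (Real.exp_pos _).le, ← Real.rpow_mul (by positivity),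
    ← Real.exp_mul, mul_one]
  congr 2; ring

/-- Pointwise comparison of the two risk integrands. -/
lemma GM_diff_ge (hLOG : S_LOG) (hPWR : S_PWR) {α : ℝ} (h1 : -1 ≤ α) (h2 : α < 1)
    (L : E k →L[ℝ] E m) (B : E m ≃L[ℝ] E m) (θ : E k) {I b K δ : ℝ} (hI : 0 < I) (hb : 0 < b)
    (hK : 0 < K) (hδ : 0 < δ) (hδ2 : δ ≤ 1 / 2) {y : (E k × E ν) × E m} (hy : y.1.2 ≠ 0) :
    (2 / (1 - α) * (I⁻¹ ^ ((1 + α) / 2) * (2 * Real.pi) ^ (-(m : ℝ) / 2 * ((1 - α) / 2)) *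
      ((2 * Real.pi) ^ (-(k : ℝ) / 2) * (2 * Real.pi) ^ (-(ν : ℝ) / 2)))) *
      (Real.exp (-(‖y.1.1 - θ‖ ^ 2 + ‖y.1.2‖ ^ 2) / 2 -
        (1 - (1 + α) / 2) * ‖y.2 - L θ‖ ^ 2 / 2) *
        Phi ((1 + α) / 2) b ((m : ℝ) / 2) K δ (‖y.1.2‖ ^ 2) y.1.1 (‖B (y.2 - L y.1.1)‖ ^ 2)) ≤
    GM α L θ (tU I b L B) y - GM α L θ (tc I b K δ L B) y := by
  have hS := S_pos hy
  have hQ0 : 0 ≤ ‖B (y.2 - L y.1.1)‖ ^ 2 := by positivity
  have hp := gauss_pos (L θ) one_pos y.2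
  have hN := N_nonneg θ y.1
  have hU := tU_pos (I := I) (b := b) L B hI hy y.2
  have hC := tc_pos (I := I) (b := b) L B hI hK hδ hδ2 hy y.2
  have hcb := c_bounds hK hδ hδ2 hS y.1.1
  have hP := hPWR α _ _ _ h1 h2 hC hU hp
  have hL := hLOG b ((m : ℝ) / 2) (‖y.1.2‖ ^ 2) (‖B (y.2 - L y.1.1)‖ ^ 2)
    (δ * psi K (‖y.1.2‖ ^ 2) y.1.1) hb (by positivity) hS hQ0 hcb.1.le hcb.2.1
  have hratio : tc I b K δ L B y.1 y.2 / tU I b L B y.1 y.2 =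
      (((1 - δ * psi K (‖y.1.2‖ ^ 2) y.1.1) * ‖y.1.2‖ ^ 2) ^ b *
        ((1 - δ * psi K (‖y.1.2‖ ^ 2) y.1.1) * ‖y.1.2‖ ^ 2 + ‖B (y.2 - L y.1.1)‖ ^ 2) ^
          (-(b + (m : ℝ) / 2))) /
      ((‖y.1.2‖ ^ 2) ^ b * (‖y.1.2‖ ^ 2 + ‖B (y.2 - L y.1.1)‖ ^ 2) ^ (-(b + (m : ℝ) / 2))) := by
    unfold tc tU td
    rw [mul_div_mul_left _ _ (by positivity)]
  rw [hratio] at hP
  have hUs : tU I b L B y.1 y.2 ^ ((1 + α) / 2) = I⁻¹ ^ ((1 + α) / 2) *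
      ((‖y.1.2‖ ^ 2) ^ (b * ((1 + α) / 2)) * (‖y.1.2‖ ^ 2 + ‖B (y.2 - L y.1.1)‖ ^ 2) ^
        (-((b + (m : ℝ) / 2) * ((1 + α) / 2)))) := td_rpow hI hS hQ0
  have hUs0 : 0 ≤ tU I b L B y.1 y.2 ^ ((1 + α) / 2) * gauss (L θ) 1 y.2 ^ ((1 - α) / 2) := by
    positivity
  have hα : 0 < 1 - α := by linarith
  have step1 : 2 / (1 - α) * (tU I b L B y.1 y.2 ^ ((1 + α) / 2) *
      gauss (L θ) 1 y.2 ^ ((1 - α) / 2) *
      (δ * psi K (‖y.1.2‖ ^ 2) y.1.1 * ((m : ℝ) / 2 * ‖y.1.2‖ ^ 2 -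
        b * ‖B (y.2 - L y.1.1)‖ ^ 2) / (‖y.1.2‖ ^ 2 + ‖B (y.2 - L y.1.1)‖ ^ 2) -
        2 * b * (δ * psi K (‖y.1.2‖ ^ 2) y.1.1) ^ 2)) ≤
      (fdiv α (tU I b L B y.1 y.2 / gauss (L θ) 1 y.2) -
        fdiv α (tc I b K δ L B y.1 y.2 / gauss (L θ) 1 y.2)) * gauss (L θ) 1 y.2 := by
    refine le_trans ?_ hP
    apply mul_le_mul_of_nonneg_left _ (by positivity)
    exact mul_le_mul_of_nonneg_left hL hUs0
  have step2 := mul_le_mul_of_nonneg_right step1 hN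
  have e1 : GM α L θ (tU I b L B) y - GM α L θ (tc I b K δ L B) y =
      (fdiv α (tU I b L B y.1 y.2 / gauss (L θ) 1 y.2) -
        fdiv α (tc I b K δ L B y.1 y.2 / gauss (L θ) 1 y.2)) * gauss (L θ) 1 y.2 *
        (gauss θ 1 y.1.1 * gauss (0 : E ν) 1 y.1.2) := by
    unfold GM; ring
  rw [e1]
  refine le_trans (le_of_eq ?_) step2
  rw [hUs, gauss_rpow]
  unfold gauss Phi
  rw [show -(‖y.1.1 - θ‖ ^ 2 + ‖y.1.2‖ ^ 2) / 2 - (1 - (1 + α) / 2) * ‖y.2 - L θ‖ ^ 2 / 2 =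
    -((1 - α) / 2) * ‖y.2 - L θ‖ ^ 2 / 2 + (-‖y.1.1 - θ‖ ^ 2 / (2 * 1) +
      -‖y.1.2 - 0‖ ^ 2 / (2 * 1)) by rw [sub_zero]; ring, Real.exp_add, Real.exp_add]
  simp only [mul_one]
  ring

/-- The hypothesis of normalisation. -/
def Norm (m : ℕ) (b I : ℝ) (B : E m ≃L[ℝ] E m) : Prop := ∀ S : ℝ, 0 < S → ∀ c : E m,
    Integrable (fun z : E m => (S + ‖B (z - c)‖ ^ 2) ^ (-(b + (m : ℝ) / 2))) ∧
    ∫ z : E m, (S + ‖B (z - c)‖ ^ 2) ^ (-(b + (m : ℝ) / 2)) =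
      I * S ^ ((m : ℝ) / 2 - (b + (m : ℝ) / 2))

/-- The model theorem. -/
theorem model (hCORE : S_CORE) (hMAP : S_MAP) (hLOG : S_LOG) (hPWR : S_PWR) (hKLI : S_KLI)
    (hν : 0 < ν) {α : ℝ} (h1 : -1 ≤ α) (h2 : α < 1)
    (L : E k →L[ℝ] E m) (B : E m ≃L[ℝ] E m) (C : E k ≃L[ℝ] E k) (R : E m →L[ℝ] E k)
    (hsq : Square ((1 + α) / 2) L B C R) (hR : R ≠ 0) {I b : ℝ} (hI : 0 < I)
    (hb : b = (ν : ℝ) / (1 - α)) (hN : Norm m b I B) :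
    ∃ K δ : ℝ, 0 < K ∧ 0 < δ ∧ δ ≤ 1 / 2 ∧ ∀ θ : E k,
      Integrable (GM α L θ (tU (ν := ν) I b L B)) ∧
      Integrable (GM α L θ (tc (ν := ν) I b K δ L B)) ∧
      ∫ y, GM α L θ (tc (ν := ν) I b K δ L B) y < ∫ y, GM α L θ (tU (ν := ν) I b L B) y := by
  have hα : 0 < 1 - α := by linarith
  have hνr : (0:ℝ) < ν := by exact_mod_cast hν
  have hb0 : 0 < b := by rw [hb]; positivity
  have hs0 : 0 ≤ (1 + α) / 2 := by linarith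
  have hs1 : (1 + α) / 2 < 1 := by linarith
  have hbs : b * (1 - (1 + α) / 2) = (ν : ℝ) / 2 := by rw [hb]; field_simp; ring
  have hm0 : (0:ℝ) ≤ (m:ℝ)/2 := by positivity
  obtain ⟨K, hK, δ, hδ, hδ2, hcore⟩ := hCORE m k b ((b + (m : ℝ) / 2) * ((1 + α) / 2)) hb0
    (by positivity) (by nlinarith) R C hR
  obtain ⟨c, hc, hmap⟩ := map_real hMAP hν hs0 hs1 hsq
  refine ⟨K, δ, hK, hδ, hδ2, fun θ => ?_⟩
  have hUpos : ∀ (y : E k × E ν) z, y.2 ≠ 0 → 0 < tU I b L B y z := fun y z hy =>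
    tU_pos L B hI hy z
  have hCpos : ∀ (y : E k × E ν) z, y.2 ≠ 0 → 0 < tc I b K δ L B y z := fun y z hy =>
    tc_pos L B hI hK hδ hδ2 hy z
  have iU : Integrable (GM α L θ (tU (ν := ν) I b L B)) := by
    rcases h1.eq_or_lt with h | h
    · rw [← h]
      have h5 := int_GM_KL hKLI hν L B θ hI hb0 (c := fun _ : E k × E ν => (1:ℝ))
        measurable_const (fun y hy => ⟨by norm_num, le_refl _⟩)
      simp only [one_mul] at h5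
      exact h5
    · exact int_GM_alpha hν h h2 L θ (measurable_tU L B) hUpos
        (fun y hy => (td_norm B hI hN (S_pos hy) _).1)
        (fun y hy => (td_norm B hI hN (S_pos hy) _).2)
  have iC : Integrable (GM α L θ (tc (ν := ν) I b K δ L B)) := by
    rcases h1.eq_or_lt with h | h
    · rw [← h]
      have hcm : Measurable (fun y : E k × E ν => 1 - δ * psi K (‖y.2‖ ^ 2) y.1) := by
        have h2 : Measurable (fun y : E k × E ν => psi K (‖y.2‖ ^ 2) y.1) :=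
          measurable_psi (by fun_prop) (by fun_prop)
        fun_prop
      exact int_GM_KL hKLI hν L B θ hI hb0 hcm (fun y hy =>
        (c_bounds hK hδ hδ2 (S_pos hy) y.1).2.2)
    · refine int_GM_alpha hν h h2 L θ (measurable_tc L B) hCpos
        (fun y hy => (td_norm B hI hN ?_ _).1)
        (fun y hy => (td_norm B hI hN ?_ _).2)
      · have h5 := (c_bounds hK hδ hδ2 (S_pos hy) y.1).2.2.1
        have := S_pos hy
        nlinarith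
      · have h5 := (c_bounds hK hδ hδ2 (S_pos hy) y.1).2.2.1
        have := S_pos hy
        nlinarith
  refine ⟨iU, iC, ?_⟩
  obtain ⟨hci, hcp⟩ := hcore θ
  have hcongr : (fun p : ℝ × E m × E k => p.1 ^ ((ν : ℝ) / 2 - 1) *
      Real.exp (-(TT p) / 2 - ‖p.2.2‖ ^ 2 / 2) *
        Phi ((1 + α) / 2) b ((m : ℝ) / 2) K δ p.1 (xx θ R C p) (‖p.2.1‖ ^ 2)) =ᵐ[mu m k]
      (fun p : ℝ × E m × E k => wt b ((b + (m : ℝ) / 2) * ((1 + α) / 2)) p *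
      ((((m : ℝ) / 2) * p.1 - b * ‖p.2.1‖ ^ 2) * (δ * psi K p.1 (xx θ R C p)) -
        2 * b * (δ * psi K p.1 (xx θ R C p)) ^ 2 * TT p)) := by
    filter_upwards [ae_mu m k] with p hp
    exact Phi_mu hbs θ R C hp
  obtain ⟨hi, heq⟩ := hmap θ (Phi ((1 + α) / 2) b ((m : ℝ) / 2) K δ)
    (measurable_Phi _ _ _ _ _) (hci.congr hcongr.symm)
  rw [integral_congr_ae hcongr] at heq
  have hpos : 0 < ∫ y : (E k × E ν) × E m,
        Real.exp (-(‖y.1.1 - θ‖ ^ 2 + ‖y.1.2‖ ^ 2) / 2 -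
          (1 - (1 + α) / 2) * ‖y.2 - L θ‖ ^ 2 / 2) *
          Phi ((1 + α) / 2) b ((m : ℝ) / 2) K δ (‖y.1.2‖ ^ 2) y.1.1
            (‖B (y.2 - L y.1.1)‖ ^ 2) := by
    rw [heq]; positivity
  have hle := integral_mono_ae (hi.const_mul (2 / (1 - α) * (I⁻¹ ^ ((1 + α) / 2) *
    (2 * Real.pi) ^ (-(m : ℝ) / 2 * ((1 - α) / 2)) *
      ((2 * Real.pi) ^ (-(k : ℝ) / 2) * (2 * Real.pi) ^ (-(ν : ℝ) / 2))))) (iU.sub iC) (by
      filter_upwards [ae_ne3 (k := k) (m := m) hν] with y hy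
      exact GM_diff_ge hLOG hPWR h1 h2 L B θ hI hb0 hK hδ hδ2 hy)
  rw [integral_const_mul] at hle
  have h3 := integral_sub iU iC
  simp only [Pi.sub_apply] at hle
  rw [h3] at hle
  have h4 : 0 < 2 / (1 - α) * (I⁻¹ ^ ((1 + α) / 2) *
    (2 * Real.pi) ^ (-(m : ℝ) / 2 * ((1 - α) / 2)) *
      ((2 * Real.pi) ^ (-(k : ℝ) / 2) * (2 * Real.pi) ^ (-(ν : ℝ) / 2))) := by positivity
  have h5 := mul_pos h4 hpos
  linarith

end Pool.Agent.L7h38.PD
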