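/-
Project PD (MP_4845bf_pr): the definitions of the final statement
(predictive densities, α-divergence loss and risk, generalised Bayes rules).
`E d = EuclideanSpace ℝ (Fin d)`, `gauss μ v` is the density of `N_d(μ, v I_d)` and
`fdiv α` is the function `f_α`.
-/
import Pool.Agent.L7h38.PD.Model4

open MeasureTheory Set Filter Topology
open scoped RealInnerProductSpace ENNReal

namespace Pool.Agent.L7h38.PD

variable {n k m : ℕ}

/-- The vector `X β`. -/
noncomputable def mv (X : Matrix (Fin n) (Fin k) ℝ) (β : E k) : E n := Matrix.toEuclideanLin X β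

/-- The `α`-divergence loss `D_α(q, p) = ∫ f_α(q(z)/p(z)) p(z) dz`. -/
noncomputable def loss (α : ℝ) (q p : E m → ℝ) : ℝ := ∫ z, fdiv α (q z / p z) * p z

/-- The risk of the predictive density `q` at `(β, v)`, `v = σ²`:
`E[D_α(q(·; y), p(· | β, v))]` for `y ∼ N_n(X β, v I_n)` and `p(· | β, v)` the density of
`N_m(Xt β, v I_m)`. -/
noncomputable def risk (X : Matrix (Fin n) (Fin k) ℝ) (Xt : Matrix (Fin m) (Fin k) ℝ) (α : ℝ)
    (q : E n → E m → ℝ) (β : E k) (v : ℝ) : ℝ :=
  ∫ y, loss α (q y) (gauss (mv Xt β) v) * gauss (mv X β) v y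

/-- The risk is finite for all parameters: the function integrated in `risk` is integrable
in `(y, z)` jointly. -/
def FiniteRisk (X : Matrix (Fin n) (Fin k) ℝ) (Xt : Matrix (Fin m) (Fin k) ℝ) (α : ℝ)
    (q : E n → E m → ℝ) : Prop :=
  ∀ (β : E k) (v : ℝ), 0 < v → Integrable (fun p : E n × E m =>
    fdiv α (q p.1 p.2 / gauss (mv Xt β) v p.2) * gauss (mv Xt β) v p.2 * gauss (mv X β) v p.1)

/-- A predictive density: for every `y` a probability density on `ℝ^m`, jointly measurable. -/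
structure IsPredictive (q : E n → E m → ℝ) : Prop where
  measurable : Measurable (fun p : E n × E m => q p.1 p.2)
  nonneg : ∀ y z, 0 ≤ q y z
  integral_eq_one : ∀ y, ∫ z, q y z = 1

/-- The unnormalised generalised Bayes predictive density under `D_α` for the prior density
`π(β, v)`, `v = σ²`:
`[∫ p(z | β, v)^((1-α)/2) p(y | β, v) π(β, v) dβ dv]^(2/(1-α))`. -/
noncomputable def genBayesRaw (X : Matrix (Fin n) (Fin k) ℝ) (Xt : Matrix (Fin m) (Fin k) ℝ)
    (α : ℝ) (π : E k → ℝ → ℝ) (y : E n) (z : E m) : ℝ :=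
  (∫ v in Ioi (0 : ℝ), ∫ β : E k, gauss (mv Xt β) v z ^ ((1 - α) / 2) *
    (gauss (mv X β) v y * π β v)) ^ (2 / (1 - α))

/-- The generalised Bayes predictive density under `D_α` for the prior density `π(β, σ²)`. -/
noncomputable def genBayes (X : Matrix (Fin n) (Fin k) ℝ) (Xt : Matrix (Fin m) (Fin k) ℝ)
    (α : ℝ) (π : E k → ℝ → ℝ) (y : E n) (z : E m) : ℝ :=
  genBayesRaw X Xt α π y z / ∫ z', genBayesRaw X Xt α π y z'

/-- The best invariant predictive density: the generalised Bayes predictive density for the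
right invariant prior `π(β, σ²) = 1/σ²`. -/
noncomputable def bestInvariant (X : Matrix (Fin n) (Fin k) ℝ) (Xt : Matrix (Fin m) (Fin k) ℝ)
    (α : ℝ) : E n → E m → ℝ :=
  genBayes X Xt α (fun _ v => 1 / v)

/-- `q₁` dominates `q₂` (both have finite risk): the risk of `q₁` is nowhere larger, and smaller
somewhere. -/
def Dominates (X : Matrix (Fin n) (Fin k) ℝ) (Xt : Matrix (Fin m) (Fin k) ℝ) (α : ℝ)
    (q₁ q₂ : E n → E m → ℝ) : Prop :=
  FiniteRisk X Xt α q₁ ∧ FiniteRisk X Xt α q₂ ∧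
    (∀ (β : E k) (v : ℝ), 0 < v → risk X Xt α q₁ β v ≤ risk X Xt α q₂ β v) ∧
    ∃ (β : E k) (v : ℝ), 0 < v ∧ risk X Xt α q₁ β v < risk X Xt α q₂ β v

end Pool.Agent.L7h38.PD
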