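/-
Project PD (MP_4845bf_pr): transfer of the model theorem.
-/
import Pool.Agent.L7h38.PD.Risk

open MeasureTheory Set Filter Topology
open scoped RealInnerProductSpace ENNReal

namespace Pool.Agent.L7h38.PD

variable {n k m ν : ℕ}

lemma finrank_prod' (n m : ℕ) : Module.finrank ℝ (E n × E m) = n + m := by
  simp

/-! ### Scaling -/

lemma gauss_scale {d : ℕ} (μ x : E d) {σ : ℝ} (hσ : 0 < σ) :
    gauss (σ • μ) (σ ^ 2) (σ • x) = σ ^ (-(d : ℝ)) * gauss μ 1 x := by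
  unfold gauss
  rw [← smul_sub, norm_smul, Real.norm_of_nonneg hσ.le]
  have h1 : (2 * Real.pi * σ ^ 2) ^ (-(d : ℝ) / 2) =
      (2 * Real.pi) ^ (-(d : ℝ) / 2) * σ ^ (-(d : ℝ)) := by
    rw [Real.mul_rpow (by positivity) (by positivity)]
    congr 1
    rw [← Real.rpow_natCast σ 2, ← Real.rpow_mul hσ.le]
    congr 1; push_cast; ring
  rw [h1, mul_one]
  have h2 : -(σ * ‖x - μ‖) ^ 2 / (2 * σ ^ 2) = -‖x - μ‖ ^ 2 / (2 * 1) := by
    field_simp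
  rw [h2]
  ring

lemma td_scale {I b h S Q σ : ℝ} (hσ : 0 < σ) (hS : 0 < S) (hQ : 0 ≤ Q) :
    td I b h (σ ^ 2 * S) (σ ^ 2 * Q) = σ ^ (-(2 * h)) * td I b h S Q := by
  unfold td
  rw [← mul_add, Real.mul_rpow (by positivity) hS.le,
    Real.mul_rpow (by positivity) (by positivity), ← Real.rpow_natCast σ 2, ← Real.rpow_mul hσ.le,
    ← Real.rpow_mul hσ.le]
  have : σ ^ (-(2 * h)) = σ ^ (((2:ℕ):ℝ) * b) * σ ^ (((2:ℕ):ℝ) * -(b + h)) := by
    rw [← Real.rpow_add hσ]; congr 1; push_cast; ring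
  rw [this]
  ring

lemma psi_scale {K S σ : ℝ} (hσ : 0 < σ) (x : E k) :
    psi K (σ ^ 2 * S) (σ • x) = psi K S x := by
  unfold psi
  rw [norm_smul, Real.norm_of_nonneg hσ.le, mul_pow,
    show K * (σ ^ 2 * S) + σ ^ 2 * ‖x‖ ^ 2 = σ ^ 2 * (K * S + ‖x‖ ^ 2) by ring,
    show K * (σ ^ 2 * S) = σ ^ 2 * (K * S) by ring, mul_div_mul_left _ _ (by positivity)]

lemma tU_scale {I b σ : ℝ} (L : E k →L[ℝ] E m) (B : E m ≃L[ℝ] E m) (hσ : 0 < σ)
    {y : E k × E ν} (hy : y.2 ≠ 0) (z : E m) :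
    tU I b L B (σ • y) (σ • z) = σ ^ (-(m : ℝ)) * tU I b L B y z := by
  unfold tU
  have h1 : ‖(σ • y).2‖ ^ 2 = σ ^ 2 * ‖y.2‖ ^ 2 := by
    rw [Prod.smul_snd, norm_smul, Real.norm_of_nonneg hσ.le, mul_pow]
  have h2 : ‖B (σ • z - L (σ • y).1)‖ ^ 2 = σ ^ 2 * ‖B (z - L y.1)‖ ^ 2 := by
    rw [Prod.smul_fst, map_smul, ← smul_sub, map_smul, norm_smul, Real.norm_of_nonneg hσ.le,
      mul_pow]
  rw [h1, h2, td_scale hσ (S_pos hy) (by positivity)]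
  congr 2; ring

lemma tc_scale {I b K δ σ : ℝ} (hK : 0 < K) (hδ : 0 < δ) (hδ2 : δ ≤ 1 / 2)
    (L : E k →L[ℝ] E m) (B : E m ≃L[ℝ] E m) (hσ : 0 < σ)
    {y : E k × E ν} (hy : y.2 ≠ 0) (z : E m) :
    tc I b K δ L B (σ • y) (σ • z) = σ ^ (-(m : ℝ)) * tc I b K δ L B y z := by
  unfold tc
  have h1 : ‖(σ • y).2‖ ^ 2 = σ ^ 2 * ‖y.2‖ ^ 2 := by
    rw [Prod.smul_snd, norm_smul, Real.norm_of_nonneg hσ.le, mul_pow]
  have h2 : ‖B (σ • z - L (σ • y).1)‖ ^ 2 = σ ^ 2 * ‖B (z - L y.1)‖ ^ 2 := by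
    rw [Prod.smul_fst, map_smul, ← smul_sub, map_smul, norm_smul, Real.norm_of_nonneg hσ.le,
      mul_pow]
  have hS := S_pos hy
  have hcb := c_bounds hK hδ hδ2 hS y.1
  rw [h1, h2, Prod.smul_fst, psi_scale hσ,
    show (1 - δ * psi K (‖y.2‖ ^ 2) y.1) * (σ ^ 2 * ‖y.2‖ ^ 2) =
      σ ^ 2 * ((1 - δ * psi K (‖y.2‖ ^ 2) y.1) * ‖y.2‖ ^ 2) by ring,
    td_scale hσ (by nlinarith [hcb.2.2.1]) (by positivity)]
  congr 2; ring

/-! ### Transfer of the risk integrals -/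

section transfer

variable {ν : ℕ} (X : Matrix (Fin n) (Fin k) ℝ) (Xt : Matrix (Fin m) (Fin k) ℝ)

/-- The integrand of the risk. -/
noncomputable def GG (α : ℝ) (q : E n → E m → ℝ) (β : E k) (v : ℝ) (p : E n × E m) : ℝ :=
  fdiv α (q p.1 p.2 / gauss (mv Xt β) v p.2) * gauss (mv Xt β) v p.2 * gauss (mv X β) v p.1

lemma mv_smul (X : Matrix (Fin n) (Fin k) ℝ) (c : ℝ) (β : E k) : mv X (c • β) = c • mv X β := by
  unfold mv; rw [map_smul]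

/-- The relation between the integrand and the model integrand. -/
lemma GG_scale {α σ : ℝ} (hσ : 0 < σ) (hn : n = k + ν) (e : E n ≃L[ℝ] E k × E ν)
    (g : E k ≃L[ℝ] E k) (he : ∀ y : E n, ‖y‖ ^ 2 = ‖(e y).1‖ ^ 2 + ‖(e y).2‖ ^ 2)
    (heg : ∀ β : E k, e (mv X β) = (g β, 0)) (L : E k →L[ℝ] E m)
    (hL : ∀ β : E k, L (g β) = mv Xt β) {q : E n → E m → ℝ} {q' : E k × E ν → E m → ℝ}
    (hq : ∀ y z, (e y).2 ≠ 0 → q y z = q' (e y) z)
    (hq' : ∀ y z, y.2 ≠ 0 → q' (σ • y) (σ • z) = σ ^ (-(m : ℝ)) * q' y z)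
    (β : E k) (y : E n) (z : E m) (hy : (e y).2 ≠ 0) :
    GG X Xt α q β (σ ^ 2) (σ • y, σ • z) =
      σ ^ (-(m : ℝ)) * σ ^ (-(n : ℝ)) * GM α L (g (σ⁻¹ • β)) q' (e y, z) := by
  have h1 : mv Xt β = σ • L (g (σ⁻¹ • β)) := by
    rw [hL, mv_smul, smul_smul, mul_inv_cancel₀ hσ.ne', one_smul]
  have h2 : mv X β = σ • mv X (σ⁻¹ • β) := by
    rw [mv_smul, smul_smul, mul_inv_cancel₀ hσ.ne', one_smul]
  have hes : e (σ • y) = σ • e y := map_smul e σ y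
  have h3 : q (σ • y) (σ • z) = σ ^ (-(m : ℝ)) * q' (e y) z := by
    rw [hq _ _ (by rw [hes, Prod.smul_snd]; exact smul_ne_zero hσ.ne' hy), hes, hq' _ _ hy]
  have h4 : gauss (mv X (σ⁻¹ • β)) 1 y =
      gauss (g (σ⁻¹ • β)) 1 (e y).1 * gauss (0 : E ν) 1 (e y).2 := by
    unfold gauss
    have h5 : ‖y - mv X (σ⁻¹ • β)‖ ^ 2 =
        ‖(e y).1 - g (σ⁻¹ • β)‖ ^ 2 + ‖(e y).2 - 0‖ ^ 2 := by
      rw [he, map_sub, heg]; rfl
    rw [h5]
    have h6 : -(‖(e y).1 - g (σ⁻¹ • β)‖ ^ 2 + ‖(e y).2 - 0‖ ^ 2) / (2 * 1) =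
        -‖(e y).1 - g (σ⁻¹ • β)‖ ^ 2 / (2 * 1) + -‖(e y).2 - 0‖ ^ 2 / (2 * 1) := by ring
    rw [h6, Real.exp_add]
    have hnr : (n : ℝ) = (k : ℝ) + (ν : ℝ) := by rw [hn]; push_cast; ring
    have h7 : (2 * Real.pi * 1) ^ (-(n : ℝ) / 2) =
        (2 * Real.pi * 1) ^ (-(k : ℝ) / 2) * (2 * Real.pi * 1) ^ (-(ν : ℝ) / 2) := by
      rw [← Real.rpow_add (by positivity)]
      congr 1; rw [hnr]; ring
    rw [h7]
    ring
  unfold GG GM
  simp only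
  rw [h1, h2, gauss_scale _ _ hσ, gauss_scale _ _ hσ, h3, h4,
    mul_div_mul_left _ _ (by positivity)]
  ring

lemma ae_e_ne {ν : ℕ} (hν : 0 < ν) (e : E n ≃L[ℝ] E k × E ν)
    (hmp : MeasurePreserving e (volume : Measure (E n)) (volume : Measure (E k × E ν))) :
    ∀ᵐ y : E n, (e y).2 ≠ 0 :=
  hmp.quasiMeasurePreserving.ae (ae_snd_ne hν)

/-- Transfer: integrability and integral. -/
lemma transfer {α : ℝ} (hν : 0 < ν) (hn : n = k + ν) (e : E n ≃L[ℝ] E k × E ν)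
    (g : E k ≃L[ℝ] E k)
    (hmp : MeasurePreserving e (volume : Measure (E n)) (volume : Measure (E k × E ν)))
    (he : ∀ y : E n, ‖y‖ ^ 2 = ‖(e y).1‖ ^ 2 + ‖(e y).2‖ ^ 2)
    (heg : ∀ β : E k, e (mv X β) = (g β, 0)) (L : E k →L[ℝ] E m)
    (hL : ∀ β : E k, L (g β) = mv Xt β) {q : E n → E m → ℝ} {q' : E k × E ν → E m → ℝ}
    (hq : ∀ y z, (e y).2 ≠ 0 → q y z = q' (e y) z)
    (hq' : ∀ σ : ℝ, 0 < σ → ∀ y z, y.2 ≠ 0 → q' (σ • y) (σ • z) = σ ^ (-(m : ℝ)) * q' y z)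
    (hint : ∀ θ, Integrable (GM α L θ q')) (β : E k) (v : ℝ) (hv : 0 < v) :
    Integrable (GG X Xt α q β v) ∧
      ∫ p, GG X Xt α q β v p = ∫ p, GM α L (g ((Real.sqrt v)⁻¹ • β)) q' p := by
  have : (volume : Measure (E n × E m)).IsAddHaarMeasure :=
    Measure.prod.instIsAddHaarMeasure volume volume
  set σ := Real.sqrt v with hσdef
  have hσ : 0 < σ := Real.sqrt_pos.mpr hv
  have hσ2 : σ ^ 2 = v := Real.sq_sqrt hv.le
  have hmp2 : MeasurePreserving (Prod.map e id : E n × E m → (E k × E ν) × E m)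
      (volume : Measure (E n × E m)) (volume : Measure ((E k × E ν) × E m)) :=
    hmp.prod (MeasurePreserving.id _)
  have hemb : MeasurableEmbedding (Prod.map e id : E n × E m → (E k × E ν) × E m) :=
    (e.toHomeomorph.toMeasurableEquiv.prodCongr (MeasurableEquiv.refl (E m))).measurableEmbedding
  have hae : (fun p : E n × E m => GG X Xt α q β v (σ • p)) =ᵐ[volume]
      fun p => (σ ^ (-(m : ℝ)) * σ ^ (-(n : ℝ))) *
        GM α L (g (σ⁻¹ • β)) q' (Prod.map e id p) := by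
    have h1 : ∀ᵐ p : E n × E m, (e p.1).2 ≠ 0 :=
      Measure.quasiMeasurePreserving_fst.ae (ae_e_ne hν e hmp)
    filter_upwards [h1] with p hp
    have := GG_scale X Xt hσ hn e g he heg L hL hq (hq' σ hσ) β p.1 p.2 hp (α := α)
    rw [hσ2] at this
    exact this
  have i1 : Integrable (fun p : E n × E m => GM α L (g (σ⁻¹ • β)) q' (Prod.map e id p)) :=
    (hmp2.integrable_comp_emb hemb).mpr (hint _)
  have i2 : Integrable (fun p : E n × E m => GG X Xt α q β v (σ • p)) :=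
    (i1.const_mul _).congr hae.symm
  refine ⟨(integrable_comp_smul_iff volume _ hσ.ne').mp i2, ?_⟩
  have h3 := Measure.integral_comp_smul (volume : Measure (E n × E m)) (GG X Xt α q β v) σ
  rw [integral_congr_ae hae, integral_const_mul, finrank_prod'] at h3
  have h4 := hmp2.integral_comp hemb (GM α L (g (σ⁻¹ • β)) q')
  rw [h4] at h3
  have h5 : σ ^ (-(m : ℝ)) * σ ^ (-(n : ℝ)) = |(σ ^ (n + m))⁻¹| := by
    rw [abs_of_pos (by positivity), ← Real.rpow_add hσ, ← Real.rpow_natCast, ← Real.rpow_neg hσ.le]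
    congr 1; push_cast; ring
  rw [h5, smul_eq_mul] at h3
  have h6 : |(σ ^ (n + m))⁻¹| ≠ 0 := by positivity
  exact (mul_left_cancel₀ h6 h3).symm

lemma risk_eq {α : ℝ} {q : E n → E m → ℝ} {β : E k} {v : ℝ}
    (h : Integrable (GG X Xt α q β v)) : risk X Xt α q β v = ∫ p, GG X Xt α q β v p := by
  unfold risk loss
  rw [Measure.volume_eq_prod, integral_prod _ h]
  refine integral_congr_ae (Filter.Eventually.of_forall fun y => ?_)
  simp only [GG]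
  rw [integral_mul_const]

end transfer

end Pool.Agent.L7h38.PD
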