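/-
Project PD (MP_4845bf_pr): the explicit form of the best invariant predictive density, and the
final theorem from its parts.
-/
import Pool.Agent.L7h38.PD.Final

open MeasureTheory Set Filter Topology
open scoped RealInnerProductSpace ENNReal

namespace Pool.Agent.L7h38.PD

variable {n k m ν : ℕ}

lemma integral_comp_equiv (g : E k ≃L[ℝ] E k) :
    ∃ D : ℝ, 0 < D ∧ ∀ F : E k → ℝ, ∫ β, F (g β) = D * ∫ θ, F θ := by
  have hdet : LinearMap.det ((g : E k →L[ℝ] E k) : E k →ₗ[ℝ] E k) ≠ 0 := by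
    have := LinearEquiv.isUnit_det' g.toLinearEquiv
    exact this.ne_zero
  refine ⟨|(LinearMap.det ((g : E k →L[ℝ] E k) : E k →ₗ[ℝ] E k))⁻¹|, by positivity, fun F => ?_⟩
  have h1 := Measure.map_linearMap_addHaar_eq_smul_addHaar (volume : Measure (E k)) hdet
  have h2 : ∫ θ, F θ ∂(Measure.map (⇑((g : E k →L[ℝ] E k) : E k →ₗ[ℝ] E k)) volume) =
      ∫ β, F (g β) :=
    g.toHomeomorph.measurableEmbedding.integral_map F
  rw [← h2, h1, integral_smul_measure, ENNReal.toReal_ofReal (abs_nonneg _), smul_eq_mul]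

lemma gauss_rpow_v {d : ℕ} (μ x : E d) {v : ℝ} (hv : 0 < v) (t : ℝ) :
    gauss μ v x ^ t = (2 * Real.pi) ^ (-(d : ℝ) / 2 * t) * v ^ (-(d : ℝ) / 2 * t) *
      Real.exp (-(t * ‖x - μ‖ ^ 2) / (2 * v)) := by
  unfold gauss
  rw [Real.mul_rpow (by positivity) (Real.exp_pos _).le, ← Real.rpow_mul (by positivity),
    ← Real.exp_mul, Real.mul_rpow (by positivity) hv.le]
  congr 2; ring

/-- The explicit form. -/
lemma bestInvariant_eq (hBAYES : S_BAYES) (X : Matrix (Fin n) (Fin k) ℝ)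
    (Xt : Matrix (Fin m) (Fin k) ℝ) {α : ℝ} (h1 : -1 ≤ α) (h2 : α < 1) (hν : 0 < ν)
    (hn : n = k + ν) (e : E n ≃L[ℝ] E k × E ν) (g : E k ≃L[ℝ] E k)
    (he : ∀ y : E n, ‖y‖ ^ 2 = ‖(e y).1‖ ^ 2 + ‖(e y).2‖ ^ 2)
    (heg : ∀ β : E k, e (mv X β) = (g β, 0)) (L : E k →L[ℝ] E m)
    (hL : ∀ β : E k, L (g β) = mv Xt β) (B : E m ≃L[ℝ] E m) (C : E k ≃L[ℝ] E k)
    (R : E m →L[ℝ] E k) (hsq : Square ((1 + α) / 2) L B C R) {I b : ℝ} (hI : 0 < I)
    (hb : b = (ν : ℝ) / (1 - α)) (hN : Norm m b I B) (y : E n) (z : E m) (hy : (e y).2 ≠ 0) :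
    bestInvariant X Xt α y z = tU I b L B (e y) z := by
  have hα : 0 < 1 - α := by linarith
  obtain ⟨D, hD, hDF⟩ := integral_comp_equiv g
  obtain ⟨c, hc, hcF⟩ := hBAYES k m ν ((1 + α) / 2) hν (by linarith) (by linarith) L B C R hsq
  have hS := S_pos hy
  have hs' : 1 - (1 + α) / 2 = (1 - α) / 2 := by ring
  have hnr : (n : ℝ) = (k : ℝ) + (ν : ℝ) := by rw [hn]; push_cast; ring
  -- the raw Bayes density
  obtain ⟨c0, hc0def⟩ : ∃ c0 : ℝ, c0 = (2 * Real.pi) ^ (-(m : ℝ) / 2 * ((1 - α) / 2)) *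
    (2 * Real.pi) ^ (-(n : ℝ) / 2) := ⟨_, rfl⟩
  have hc0 : 0 < c0 := by rw [hc0def]; positivity
  have hraw : ∀ z : E m, genBayesRaw X Xt α (fun _ v => 1 / v) y z =
      (c0 * D * c) ^ (2 / (1 - α)) *
        (‖(e y).2‖ ^ 2 + ‖B (z - L (e y).1)‖ ^ 2) ^ (-(b + (m : ℝ) / 2)) := by
    intro z
    unfold genBayesRaw
    have hin : ∀ v ∈ Ioi (0:ℝ), ∫ β : E k, gauss (mv Xt β) v z ^ ((1 - α) / 2) *
        (gauss (mv X β) v y * (1 / v)) = (c0 * D) * ∫ θ : E k,
        v ^ (-((m : ℝ) * (1 - (1 + α) / 2) + k + ν) / 2 - 1) *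
        Real.exp (-((1 - (1 + α) / 2) * ‖z - L θ‖ ^ 2 + ‖(e y).1 - θ‖ ^ 2 +
          ‖(e y).2‖ ^ 2) / (2 * v)) := by
      intro v hv
      have hv' : 0 < v := hv
      rw [mul_assoc, ← hDF, ← integral_const_mul]
      refine integral_congr_ae (Filter.Eventually.of_forall fun β => ?_)
      simp only
      have hy1 := gauss_rpow_v (mv X β) y hv' 1
      rw [Real.rpow_one, mul_one, one_mul] at hy1
      rw [gauss_rpow_v _ _ hv', hy1, ← hL]
      have h5 : ‖y - mv X β‖ ^ 2 = ‖(e y).1 - g β‖ ^ 2 + ‖(e y).2‖ ^ 2 := by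
        rw [he, map_sub, heg]
        simp
      have h6 : v ^ (-((m : ℝ) * (1 - (1 + α) / 2) + k + ν) / 2 - 1) =
          v ^ (-(m : ℝ) / 2 * ((1 - α) / 2)) * v ^ (-(n : ℝ) / 2) * (1 / v) := by
        rw [← Real.rpow_add hv', one_div, ← Real.rpow_neg_one v, ← Real.rpow_add hv', hnr, hs']
        congr 1; ring
      have h7 : Real.exp (-((1 - (1 + α) / 2) * ‖z - L (g β)‖ ^ 2 + ‖(e y).1 - g β‖ ^ 2 +
          ‖(e y).2‖ ^ 2) / (2 * v)) = Real.exp (-((1 - α) / 2 * ‖z - L (g β)‖ ^ 2) / (2 * v)) *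
          Real.exp (-‖y - mv X β‖ ^ 2 / (2 * v)) := by
        rw [← Real.exp_add, h5, hs']
        congr 1; ring
      rw [h6, h7, hc0def]
      ring
    rw [setIntegral_congr_fun measurableSet_Ioi hin, integral_const_mul,
      hcF (e y).1 (‖(e y).2‖ ^ 2) hS z, ← mul_assoc,
      Real.mul_rpow (by positivity) (by positivity), ← Real.rpow_mul (by positivity)]
    congr 2
    rw [hs', hb]
    field_simp
    ring
  have hcst : 0 < (c0 * D * c) ^ (2 / (1 - α)) := by positivity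
  unfold bestInvariant genBayes
  simp only [hraw]
  rw [integral_const_mul, (hN _ hS (L (e y).1)).2]
  unfold tU td
  rw [show (m : ℝ) / 2 - (b + (m : ℝ) / 2) = -b by ring, Real.rpow_neg hS.le]
  field_simp

/-- A density. -/
lemma integral_gauss_one {d : ℕ} : ∫ x : E d, gauss (0 : E d) 1 x = 1 := by
  have h := GaussianFourier.integral_rexp_neg_mul_sq_norm (V := E d) (b := 1/2) (by norm_num)
  unfold gauss
  rw [integral_const_mul]
  have h2 : ∫ x : E d, Real.exp (-‖x - 0‖ ^ 2 / (2 * 1)) =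
      ∫ x : E d, Real.exp (-(1/2) * ‖x‖ ^ 2) := by
    refine integral_congr_ae (Filter.Eventually.of_forall fun x => ?_)
    simp only [sub_zero]
    congr 1; ring
  rw [h2, h]
  simp only [finrank_euclideanSpace, Fintype.card_fin, mul_one]
  rw [show Real.pi / (1/2) = 2 * Real.pi by ring, ← Real.rpow_add (by positivity)]
  rw [show -(d:ℝ)/2 + (d:ℝ)/2 = 0 by ring, Real.rpow_zero]

/-- The dominating rule. -/
noncomputable def better {ν : ℕ} (e : E n ≃L[ℝ] E k × E ν) (I b K δ : ℝ) (L : E k →L[ℝ] E m)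
    (B : E m ≃L[ℝ] E m) (y : E n) (z : E m) : ℝ :=
  open Classical in if (e y).2 = 0 then gauss 0 1 z else tc I b K δ L B (e y) z

lemma isPredictive_better {ν : ℕ} (e : E n ≃L[ℝ] E k × E ν) {I b K δ : ℝ} (L : E k →L[ℝ] E m)
    (B : E m ≃L[ℝ] E m) (hI : 0 < I) (hK : 0 < K) (hδ : 0 < δ) (hδ2 : δ ≤ 1 / 2)
    (hN : Norm m b I B) : IsPredictive (better e I b K δ L B) := by
  refine ⟨?_, ?_, ?_⟩
  · unfold better
    refine Measurable.ite ?_ ?_ ?_
    · have h1 : Measurable (fun p : E n × E m => (e p.1).2) :=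
        measurable_snd.comp (e.continuous.measurable.comp measurable_fst)
      exact h1 (measurableSet_singleton 0)
    · exact (measurable_gauss 0 1).comp measurable_snd
    · have h0 : Measurable (fun p : (E k × E ν) × E m => tc I b K δ L B p.1 p.2) :=
        measurable_tc L B
      have h3 : Measurable (fun p : E n × E m => ((e p.1, p.2) : (E k × E ν) × E m)) :=
        Measurable.prodMk (e.continuous.measurable.comp measurable_fst) measurable_snd
      have h4 : Measurable ((fun p : (E k × E ν) × E m => tc I b K δ L B p.1 p.2) ∘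
        (fun p : E n × E m => ((e p.1, p.2) : (E k × E ν) × E m))) := h0.comp h3
      exact h4
  · intro y z
    unfold better
    split_ifs with h
    · exact (gauss_pos _ one_pos _).le
    · exact (tc_pos L B hI hK hδ hδ2 h z).le
  · intro y
    unfold better
    split_ifs with h
    · exact integral_gauss_one
    · have hS := S_pos h
      have hcb := c_bounds hK hδ hδ2 hS (e y).1
      exact (td_norm B hI hN (by nlinarith [hcb.2.2.1]) _).2

lemma better_pos {ν : ℕ} (e : E n ≃L[ℝ] E k × E ν) {I b K δ : ℝ} (L : E k →L[ℝ] E m)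
    (B : E m ≃L[ℝ] E m) (hI : 0 < I) (hK : 0 < K) (hδ : 0 < δ) (hδ2 : δ ≤ 1 / 2)
    (y : E n) (z : E m) : 0 < better e I b K δ L B y z := by
  unfold better
  split_ifs with h
  · exact gauss_pos _ one_pos _
  · exact tc_pos L B hI hK hδ hδ2 h z

/-- The final theorem from its parts, with `ν` degrees of freedom. -/
theorem final_aux (hCORE : S_CORE) (hMAP : S_MAP) (hLOG : S_LOG) (hPWR : S_PWR) (hKLI : S_KLI)
    (hLIN : S_LIN) (hNORM : S_NORM) (hBAYES : S_BAYES) (hν : 0 < ν) (hn : n = k + ν)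
    (X : Matrix (Fin n) (Fin k) ℝ) (Xt : Matrix (Fin m) (Fin k) ℝ) (hXt : Xt ≠ 0) {α : ℝ}
    (h1 : -1 ≤ α) (h2 : α < 1) (e : E n ≃L[ℝ] E k × E ν) (g : E k ≃L[ℝ] E k)
    (hmp : MeasurePreserving e (volume : Measure (E n)) (volume : Measure (E k × E ν)))
    (he : ∀ y : E n, ‖y‖ ^ 2 = ‖(e y).1‖ ^ 2 + ‖(e y).2‖ ^ 2)
    (heg : ∀ β : E k, e (mv X β) = (g β, 0)) :
    (∀ᵐ y : E n, (∀ z, 0 < bestInvariant X Xt α y z) ∧ ∫ z, bestInvariant X Xt α y z = 1) ∧
    ∃ q : E n → E m → ℝ, IsPredictive q ∧ (∀ y z, 0 < q y z) ∧ FiniteRisk X Xt α q ∧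
      FiniteRisk X Xt α (bestInvariant X Xt α) ∧
      ∀ (β : E k) (v : ℝ), 0 < v → risk X Xt α q β v < risk X Xt α (bestInvariant X Xt α) β v := by
  have hα : 0 < 1 - α := by linarith
  have hνr : (0:ℝ) < ν := by exact_mod_cast hν
  let L : E k →L[ℝ] E m :=
    (LinearMap.toContinuousLinearMap (Matrix.toEuclideanLin Xt)).comp (g.symm : E k →L[ℝ] E k)
  have hL : ∀ β : E k, L (g β) = mv Xt β := by
    intro β
    simp [L, mv]
  have hL0 : L ≠ 0 := by
    intro h
    apply hXt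
    have h3 : ∀ β : E k, Matrix.toEuclideanLin Xt β = 0 := by
      intro β
      have := hL β
      rw [h] at this
      simpa [mv] using this.symm
    have h4 : Matrix.toEuclideanLin Xt = 0 := LinearMap.ext h3
    exact (LinearEquiv.map_eq_zero_iff _).mp h4
  obtain ⟨B, C, R, hsq, hR⟩ := hLIN m k ((1 + α) / 2) (by linarith) (by linarith) L
  obtain ⟨b, hb⟩ : ∃ b : ℝ, b = (ν : ℝ) / (1 - α) := ⟨_, rfl⟩
  have hb0 : 0 < b := by rw [hb]; positivity
  obtain ⟨I, hI, hN⟩ := hNORM m (b + (m : ℝ) / 2) (by linarith) B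
  have hN' : Norm m b I B := hN
  obtain ⟨K, δ, hK, hδ, hδ2, hmod⟩ := model hCORE hMAP hLOG hPWR hKLI hν h1 h2 L B C R hsq
    (hR hL0) hI hb hN'
  have tr1 := fun β v hv => transfer X Xt (α := α) hν hn e g hmp he heg L hL
    (q := better e I b K δ L B) (q' := tc I b K δ L B)
    (fun y z hy => by unfold better; rw [if_neg hy])
    (fun σ hσ y z hy => tc_scale hK hδ hδ2 L B hσ hy z) (fun θ => (hmod θ).2.1) β v hv
  have tr2 := fun β v hv => transfer X Xt (α := α) hν hn e g hmp he heg L hL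
    (q := bestInvariant X Xt α) (q' := tU I b L B)
    (fun y z hy => bestInvariant_eq hBAYES X Xt h1 h2 hν hn e g he heg L hL B C R hsq hI hb
      hN' y z hy)
    (fun σ hσ y z hy => tU_scale L B hσ hy z) (fun θ => (hmod θ).1) β v hv
  refine ⟨?_, better e I b K δ L B, isPredictive_better e L B hI hK hδ hδ2 hN',
    better_pos e L B hI hK hδ hδ2, fun β v hv => (tr1 β v hv).1, fun β v hv => (tr2 β v hv).1, fun β v hv => ?_⟩
  · filter_upwards [ae_e_ne hν e hmp] with y hy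
    have h5 : ∀ z, bestInvariant X Xt α y z = tU I b L B (e y) z := fun z =>
      bestInvariant_eq hBAYES X Xt h1 h2 hν hn e g he heg L hL B C R hsq hI hb hN' y z hy
    refine ⟨fun z => ?_, ?_⟩
    · rw [h5]; exact tU_pos L B hI hy z
    · simp only [h5]
      exact (td_norm B hI hN' (S_pos hy) _).2
  rw [risk_eq X Xt (tr1 β v hv).1, risk_eq X Xt (tr2 β v hv).1, (tr1 β v hv).2, (tr2 β v hv).2]
  exact (hmod _).2.2

/-- The final theorem from its parts. -/
theorem final_of (hCORE : S_CORE) (hMAP : S_MAP) (hLOG : S_LOG) (hPWR : S_PWR) (hKLI : S_KLI)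
    (hISO : S_ISO) (hLIN : S_LIN) (hNORM : S_NORM) (hBAYES : S_BAYES)
    (hkn : k < n) (X : Matrix (Fin n) (Fin k) ℝ)
    (hX : Function.Injective (mv X)) (Xt : Matrix (Fin m) (Fin k) ℝ) (hXt : Xt ≠ 0) {α : ℝ}
    (h1 : -1 ≤ α) (h2 : α < 1) :
    (∀ᵐ y : E n, (∀ z, 0 < bestInvariant X Xt α y z) ∧ ∫ z, bestInvariant X Xt α y z = 1) ∧
    ∃ q : E n → E m → ℝ, IsPredictive q ∧ (∀ y z, 0 < q y z) ∧ FiniteRisk X Xt α q ∧
      FiniteRisk X Xt α (bestInvariant X Xt α) ∧
      ∀ (β : E k) (v : ℝ), 0 < v → risk X Xt α q β v < risk X Xt α (bestInvariant X Xt α) β v := by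
  obtain ⟨e, g, hmp, he, heg⟩ := hISO n k hkn.le
    (LinearMap.toContinuousLinearMap (Matrix.toEuclideanLin X)) hX
  exact final_aux hCORE hMAP hLOG hPWR hKLI hLIN hNORM hBAYES (Nat.sub_pos_of_lt hkn)
    (by omega) X Xt hXt h1 h2 e g hmp he heg

/-- A matrix of full column rank is injective. -/
lemma mv_injective {X : Matrix (Fin n) (Fin k) ℝ} (hX : X.rank = k) :
    Function.Injective (mv X) := by
  have h1 : LinearMap.ker X.mulVecLin = ⊥ := by
    have h2 := X.mulVecLin.finrank_range_add_finrank_ker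
    have h3 : Module.finrank ℝ (LinearMap.range X.mulVecLin) = k := hX
    rw [h3] at h2
    simp only [Module.finrank_fintype_fun_eq_card, Fintype.card_fin] at h2
    have h4 : Module.finrank ℝ (LinearMap.ker X.mulVecLin) = 0 := by omega
    exact Submodule.finrank_eq_zero.mp h4
  have h5 : Function.Injective X.mulVecLin := LinearMap.ker_eq_bot.mp h1
  intro a b hab
  have h6 : X.mulVecLin a.ofLp = X.mulVecLin b.ofLp := by
    have h7 : (mv X a).ofLp = (mv X b).ofLp := by rw [hab]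
    simpa [mv, Matrix.toLpLin_apply] using h7
  have h8 := h5 h6
  exact (WithLp.ofLp_injective 2) h8

end Pool.Agent.L7h38.PD
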